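import Mathlib

section

open MulAction
open scoped Classical commutatorElement

namespace Pool.Agent.Lib.MP_69a6f7_al

/-- A nontrivial soluble group has a nontrivial abelian normal subgroup. -/
theorem exists_comm_normal (L : Type*) [Group L] [Group.IsSolvable L] [Nontrivial L] :
    ∃ A : Subgroup L, A.Normal ∧ A ≠ ⊥ ∧ (∀ a ∈ A, ∀ b ∈ A, a * b = b * a) := by
  have hex : ∃ n, derivedSeries L n = ⊥ := Group.IsSolvable.solvable
  have hspec := Nat.find_spec hex
  have hpos : Nat.find hex ≠ 0 := by
    intro h0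
    rw [h0] at hspec
    simp at hspec
  obtain ⟨k, hk⟩ := Nat.exists_eq_succ_of_ne_zero hpos
  refine ⟨derivedSeries L k, derivedSeries_normal L k, ?_, ?_⟩
  · exact Nat.find_min hex (by omega)
  · intro a ha b hb
    rw [hk, derivedSeries_succ] at hspec
    have : ⁅a, b⁆ ∈ (⊥ : Subgroup L) := by
      rw [← hspec]
      exact Subgroup.commutator_mem_commutator ha hb
    rw [Subgroup.mem_bot] at this
    exact commutatorElement_eq_one_iff_mul_comm.mp this

/-- A nontrivial soluble group with a faithful primitive action has a regular abelian normal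
subgroup. -/
theorem exists_regular (L : Type*) [Group L] [Group.IsSolvable L] (D : Type*) [MulAction L D]
    [FaithfulSMul L D] [IsPreprimitive L D] [Nontrivial D] :
    ∃ A : Subgroup L, A.Normal ∧ (∀ a ∈ A, ∀ b ∈ A, a * b = b * a) ∧
      (∀ x y : D, ∃ a ∈ A, a • x = y) ∧ (∀ a ∈ A, ∀ x : D, a • x = x → a = 1) := by
  have hnt : Nontrivial L := by
    obtain ⟨x, y, hxy⟩ := exists_pair_ne D
    obtain ⟨g, hg⟩ := exists_smul_eq L x y
    refine ⟨g, 1, ?_⟩
    rintro rfl
    rw [one_smul] at hg
    exact hxy hg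
  obtain ⟨A, hAn, hAb, hAc⟩ := exists_comm_normal L
  have htr : IsPretransitive A D := by
    apply IsQuasiPreprimitive.isPretransitive_of_normal (G := L)
    intro h
    apply hAb
    rw [Subgroup.eq_bot_iff_forall]
    intro a ha
    apply FaithfulSMul.eq_of_smul_eq_smul (α := D)
    intro x
    have hx : x ∈ fixedPoints A D := by rw [h]; trivial
    rw [mem_fixedPoints] at hx
    have := hx ⟨a, ha⟩
    rw [one_smul]
    exact this
  refine ⟨A, hAn, hAc, ?_, ?_⟩
  · intro x y
    obtain ⟨a, ha⟩ := exists_smul_eq A x y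
    exact ⟨a, a.2, ha⟩
  · intro a ha x hx
    apply FaithfulSMul.eq_of_smul_eq_smul (α := D)
    intro y
    obtain ⟨b, hb⟩ := exists_smul_eq A x y
    have hb' : (b : L) • x = y := hb
    rw [one_smul, ← hb', smul_smul, hAc a ha b b.2, ← smul_smul, hx]

/-- In a faithful primitive soluble group, a nonidentity element moves at least half of the
points. -/
theorem card_le_two_mul_moved (L : Type*) [Group L] [Group.IsSolvable L] (D : Type*) [Fintype D]
    [MulAction L D] [FaithfulSMul L D] [IsPreprimitive L D] [Nontrivial D] (g : L) (hg : g ≠ 1) :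
    Fintype.card D ≤ 2 * (Finset.univ.filter (fun x : D => g • x ≠ x)).card := by
  obtain ⟨A, hAn, hAc, hAt, hAr⟩ := exists_regular L D
  have hpart : (Finset.univ.filter (fun x : D => g • x = x)).card
      + (Finset.univ.filter (fun x : D => g • x ≠ x)).card = Fintype.card D := by
    rw [← Finset.card_univ]
    exact Finset.card_filter_add_card_filter_not _
  by_cases hfix : ∃ x0 : D, g • x0 = x0
  · obtain ⟨x0, hx0⟩ := hfix
    -- the bijection A ≃ D
    have hbij : Function.Bijective (fun a : A => (a : L) • x0) := by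
      constructor
      · intro a b hab
        have hab' : (a : L) • x0 = (b : L) • x0 := hab
        have h1 : ((b : L)⁻¹ * a) • x0 = x0 := by
          rw [← smul_smul, hab', inv_smul_smul]
        have h2 := hAr _ (A.mul_mem (A.inv_mem b.2) a.2) x0 h1
        have h3 : (a : L) = b := by
          rw [inv_mul_eq_one] at h2
          exact h2.symm
        exact Subtype.ext h3
      · intro y
        obtain ⟨a, ha, hay⟩ := hAt x0 y
        exact ⟨⟨a, ha⟩, hay⟩
    have hfinA : Finite A := Finite.of_injective _ hbij.1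
    have hcardA : Nat.card A = Fintype.card D := by
      rw [← Nat.card_eq_fintype_card]
      exact Nat.card_eq_of_bijective _ hbij
    let C : Subgroup A := (Subgroup.centralizer {g}).subgroupOf A
    have hfixC : ∀ a : A, (g • ((a : L) • x0) = (a : L) • x0 ↔ a ∈ C) := by
      intro a
      have hmem : a ∈ C ↔ (a : L) ∈ Subgroup.centralizer {g} := Subgroup.mem_subgroupOf
      rw [hmem, Subgroup.mem_centralizer_singleton_iff]
      have h1 : g • ((a : L) • x0) = (g * a * g⁻¹) • x0 := by
        have : g⁻¹ • x0 = x0 := by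
          rw [inv_smul_eq_iff]; exact hx0.symm
        rw [← smul_smul, ← smul_smul, this]
      rw [h1]
      constructor
      · intro h
        have h2 : ((a : L)⁻¹ * (g * a * g⁻¹)) • x0 = x0 := by
          rw [← smul_smul, h, inv_smul_smul]
        have h3 := hAr _ (A.mul_mem (A.inv_mem a.2) (hAn.conj_mem a a.2 g)) x0 h2
        have h4 : g * a * g⁻¹ = a := by
          rw [inv_mul_eq_one] at h3
          exact h3.symm
        have h5 : g * a = a * g := by
          rw [mul_inv_eq_iff_eq_mul] at h4
          exact h4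
        exact h5.symm
      · intro h
        have : g * a * g⁻¹ = a := by
          rw [mul_inv_eq_iff_eq_mul]
          exact h.symm
        rw [this]
    have hCne : C ≠ ⊤ := by
      intro hC
      apply hg
      apply FaithfulSMul.eq_of_smul_eq_smul (α := D)
      intro y
      obtain ⟨a, hay⟩ := hbij.2 y
      have hay' : (a : L) • x0 = y := hay
      have : a ∈ C := by rw [hC]; trivial
      rw [one_smul, ← hay']
      exact (hfixC a).mpr this
    have hidx : 2 ≤ C.index := by
      have h0 : C.index ≠ 0 := Subgroup.index_ne_zero_of_finite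
      have h1 : C.index ≠ 1 := by
        intro h
        exact hCne (Subgroup.index_eq_one.mp h)
      omega
    have hcardC : 2 * Nat.card C ≤ Nat.card A := by
      rw [← C.card_mul_index]
      nlinarith [Nat.zero_le (Nat.card C)]
    have hfixcard : (Finset.univ.filter (fun x : D => g • x = x)).card = Nat.card C := by
      rw [← Fintype.card_subtype, ← Nat.card_eq_fintype_card]
      symm
      refine Nat.card_eq_of_bijective
        (fun c : C => (⟨((c : A) : L) • x0, (hfixC c).mpr c.2⟩ : {x : D // g • x = x})) ?_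
      constructor
      · intro c d hcd
        have : ((c : A) : L) • x0 = ((d : A) : L) • x0 := congrArg Subtype.val hcd
        exact Subtype.ext (hbij.1 this)
      · rintro ⟨y, hy⟩
        obtain ⟨a, hay⟩ := hbij.2 y
        have hay' : (a : L) • x0 = y := hay
        have : a ∈ C := by
          rw [← hfixC a, hay']
          exact hy
        exact ⟨⟨a, this⟩, Subtype.ext hay'⟩
    omega
  · have : (Finset.univ.filter (fun x : D => g • x = x)).card = 0 := by
      rw [Finset.card_eq_zero, Finset.filter_eq_empty_iff]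
      intro x _ hx
      exact hfix ⟨x, hx⟩
    omega

end Pool.Agent.Lib.MP_69a6f7_al
end

section

open MulAction
open scoped Classical

namespace Pool.Agent.Lib.MP_69a6f7_al

theorem card_mul_relIndex' {L : Type*} [Group L] {U V : Subgroup L} (h : U ≤ V) :
    Nat.card U * U.relIndex V = Nat.card V := by
  rw [← Subgroup.relIndex_bot_left U, ← Subgroup.relIndex_bot_left V]
  exact Subgroup.relIndex_mul_relIndex ⊥ U V bot_le h

theorem two_mul_card_le_of_lt {L : Type*} [Group L] [Finite L] {U V : Subgroup L} (h : U < V) :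
    2 * Nat.card U ≤ Nat.card V := by
  have h1 : Nat.card U * U.relIndex V = Nat.card V := card_mul_relIndex' h.le
  have h2 : U.relIndex V ≠ 0 := by
    intro h0
    rw [h0, mul_zero] at h1
    exact (Nat.card_pos (α := V)).ne h1
  have h3 : U.relIndex V ≠ 1 := by
    intro h1
    exact h.not_ge (Subgroup.relIndex_eq_one.mp h1)
  have h4 : 2 ≤ U.relIndex V := by omega
  calc 2 * Nat.card U ≤ U.relIndex V * Nat.card U := Nat.mul_le_mul_right _ h4
    _ = Nat.card V := by rw [mul_comm]; exact h1

theorem card_le_card_mul_card_inf_stabilizer {L : Type*} [Group L] [Finite L] {D : Type*}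
    [Fintype D] [MulAction L D] (K : Subgroup L) (y : D) :
    Nat.card K ≤ Fintype.card D * Nat.card (K ⊓ stabilizer L y : Subgroup L) := by
  have h1 : Nat.card (K ⊓ stabilizer L y : Subgroup L)
      * (K ⊓ stabilizer L y).relIndex K = Nat.card K := card_mul_relIndex' inf_le_left
  have h2 : (K ⊓ stabilizer L y).relIndex K = (stabilizer K y).index := by
    rw [Subgroup.relIndex]
    congr 1
    ext k
    rw [Subgroup.mem_subgroupOf, Subgroup.mem_inf]
    constructor
    · intro h
      exact h.2
    · intro h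
      exact ⟨k.2, h⟩
  have h3 : (stabilizer K y).index ≤ Fintype.card D := by
    rw [MulAction.index_stabilizer]
    rw [← Nat.card_eq_fintype_card]
    exact Set.ncard_le_card _
  rw [← h1, h2, mul_comm]
  exact Nat.mul_le_mul_right _ h3

theorem aux_pow (j : ℕ) : (j + 1) * (j + 2) ≤ 4 * 2 ^ j := by
  induction j with
  | zero => norm_num
  | succ n ih =>
    rcases Nat.lt_or_ge n 2 with h | h
    · interval_cases n <;> norm_num
    · rw [pow_succ]
      nlinarith

/-- Order bound for primitive soluble groups. -/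
theorem card_primitive_le (L : Type*) [Group L] [Finite L] [Group.IsSolvable L] (D : Type*)
    [Fintype D] [MulAction L D] [FaithfulSMul L D] [IsPreprimitive L D] [Nontrivial D] :
    Nat.card L ≤ 16 ^ (Fintype.card D - 1) := by
  obtain ⟨A, hAn, hAc, hAt, hAr⟩ := exists_regular L D
  obtain ⟨x0⟩ : Nonempty D := inferInstance
  have hbij : Function.Bijective (fun a : A => (a : L) • x0) := by
    constructor
    · intro a b hab
      have hab' : (a : L) • x0 = (b : L) • x0 := hab
      have h1 : ((b : L)⁻¹ * a) • x0 = x0 := by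
        rw [← smul_smul, hab', inv_smul_smul]
      have h2 := hAr _ (A.mul_mem (A.inv_mem b.2) a.2) x0 h1
      have h3 : (a : L) = b := by
        rw [inv_mul_eq_one] at h2
        exact h2.symm
      exact Subtype.ext h3
    · intro y
      obtain ⟨a, ha, hay⟩ := hAt x0 y
      exact ⟨⟨a, ha⟩, hay⟩
  have hcardA : Nat.card A = Fintype.card D := by
    rw [← Nat.card_eq_fintype_card]
    exact Nat.card_eq_of_bijective _ hbij
  have hm : 1 < Fintype.card D := Fintype.one_lt_card
  -- key fact : a group element fixing x0 and commuting with a fixes a • x0, and conversely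
  have hkey : ∀ k : L, k • x0 = x0 → ∀ a ∈ A, (k • a • x0 = a • x0 ↔ k * a = a * k) := by
    intro k hk a ha
    have h1 : k • (a • x0) = (k * a * k⁻¹) • x0 := by
      have : k⁻¹ • x0 = x0 := by
        rw [inv_smul_eq_iff]; exact hk.symm
      rw [← smul_smul, ← smul_smul, this]
    rw [h1]
    constructor
    · intro h
      have h2 : (a⁻¹ * (k * a * k⁻¹)) • x0 = x0 := by
        rw [← smul_smul, h, inv_smul_smul]
      have h3 := hAr _ (A.mul_mem (A.inv_mem ha) (hAn.conj_mem a ha k)) x0 h2
      have h4 : k * a * k⁻¹ = a := by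
        rw [inv_mul_eq_one] at h3
        exact h3.symm
      rw [mul_inv_eq_iff_eq_mul] at h4
      exact h4
    · intro h
      have : k * a * k⁻¹ = a := by
        rw [mul_inv_eq_iff_eq_mul]
        exact h
      rw [this]
  have claim : ∀ j : ℕ, ∀ K : Subgroup L, (∀ k ∈ K, k • x0 = x0) →
      Nat.card A ≤ 2 ^ j * Nat.card (A ⊓ Subgroup.centralizer (K : Set L) : Subgroup L) →
      Nat.card K ≤ (Fintype.card D) ^ j := by
    intro j
    induction j with
    | zero =>
      intro K hK hle
      rw [pow_zero, one_mul] at hle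
      have hEq : A ⊓ Subgroup.centralizer (K : Set L) = A :=
        Subgroup.eq_of_le_of_card_ge inf_le_left hle
      have hK1 : K = ⊥ := by
        rw [Subgroup.eq_bot_iff_forall]
        intro k hk
        apply FaithfulSMul.eq_of_smul_eq_smul (α := D)
        intro y
        obtain ⟨a, hay⟩ := hbij.2 y
        have hay' : (a : L) • x0 = y := hay
        rw [one_smul, ← hay']
        rw [hkey k (hK k hk) a a.2]
        have : (a : L) ∈ A ⊓ Subgroup.centralizer (K : Set L) := by rw [hEq]; exact a.2
        exact (Subgroup.mem_centralizer_iff.mp this.2) k hk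
      rw [hK1]
      simp
    | succ j ih =>
      intro K hK hle
      by_cases hK1 : K = ⊥
      · rw [hK1]
        simp only [Nat.card_eq_fintype_card, Fintype.card_unique]
        exact Nat.one_le_pow _ _ (by omega)
      · rw [Subgroup.eq_bot_iff_forall] at hK1
        push Not at hK1
        obtain ⟨k0, hk0, hk0ne⟩ := hK1
        have : ∃ y : D, k0 • y ≠ y := by
          by_contra hcon
          push Not at hcon
          apply hk0ne
          apply FaithfulSMul.eq_of_smul_eq_smul (α := D)
          intro y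
          rw [hcon y, one_smul]
        obtain ⟨y, hy⟩ := this
        obtain ⟨a, hay⟩ := hbij.2 y
        have hay' : (a : L) • x0 = y := hay
        set K' : Subgroup L := K ⊓ stabilizer L y with hK'
        have hlt : A ⊓ Subgroup.centralizer (K : Set L) <
            A ⊓ Subgroup.centralizer (K' : Set L) := by
          rw [lt_iff_le_and_ne]
          constructor
          · apply inf_le_inf_left
            apply Subgroup.centralizer_le
            intro z hz
            exact hz.1
          · intro heq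
            have h1 : (a : L) ∈ A ⊓ Subgroup.centralizer (K' : Set L) := by
              refine Subgroup.mem_inf.mpr ⟨a.2, ?_⟩
              rw [Subgroup.mem_centralizer_iff]
              intro k hk
              have hk1 : k ∈ K := hk.1
              have hk2 : k • y = y := hk.2
              rw [← hay'] at hk2
              exact (hkey k (hK k hk1) a a.2).mp hk2
            rw [← heq] at h1
            have h2 := (Subgroup.mem_centralizer_iff.mp h1.2) k0 hk0
            apply hy
            rw [← hay']
            exact (hkey k0 (hK k0 hk0) a a.2).mpr h2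
        have hcard := two_mul_card_le_of_lt hlt
        have h3 : Nat.card A ≤ 2 ^ j *
            Nat.card (A ⊓ Subgroup.centralizer (K' : Set L) : Subgroup L) := by
          calc Nat.card A ≤ 2 ^ (j + 1) *
              Nat.card (A ⊓ Subgroup.centralizer (K : Set L) : Subgroup L) := hle
            _ = 2 ^ j * (2 * Nat.card (A ⊓ Subgroup.centralizer (K : Set L) : Subgroup L)) := by
              ring
            _ ≤ _ := Nat.mul_le_mul_left _ hcard
        have h4 := ih K' (fun k hk => hK k hk.1) h3
        calc Nat.card K ≤ Fintype.card D * Nat.card K' :=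
              card_le_card_mul_card_inf_stabilizer K y
          _ ≤ Fintype.card D * Fintype.card D ^ j := Nat.mul_le_mul_left _ h4
          _ = Fintype.card D ^ (j + 1) := by ring
  set m := Fintype.card D with hmdef
  set j := Nat.clog 2 m with hj
  have hmj : m ≤ 2 ^ j := Nat.le_pow_clog (by norm_num) m
  have hst : Nat.card (stabilizer L x0) ≤ m ^ j := by
    apply claim j (stabilizer L x0)
    · intro k hk
      exact hk
    · rw [hcardA]
      calc m ≤ 2 ^ j * 1 := by omega
        _ ≤ _ := Nat.mul_le_mul_left _ Nat.card_pos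
  have htot : Nat.card L ≤ m * m ^ j := by
    have h1 := card_le_card_mul_card_inf_stabilizer (⊤ : Subgroup L) x0
    rw [top_inf_eq, Subgroup.card_top] at h1
    calc Nat.card L ≤ m * Nat.card (stabilizer L x0) := h1
      _ ≤ m * m ^ j := Nat.mul_le_mul_left _ hst
  have hjpos : j ≠ 0 := by
    intro h0
    rw [h0, pow_zero] at hmj
    omega
  obtain ⟨i, hi⟩ := Nat.exists_eq_succ_of_ne_zero hjpos
  have hlow : 2 ^ i < m := by
    have := Nat.pow_pred_clog_lt_self (b := 2) (by norm_num) hm
    rw [← hj, hi] at this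
    simpa using this
  calc Nat.card L ≤ m * m ^ j := htot
    _ = m ^ (j + 1) := by ring
    _ ≤ (2 ^ j) ^ (j + 1) := Nat.pow_le_pow_left hmj _
    _ = 2 ^ ((i + 1) * (i + 2)) := by rw [hi, ← pow_mul]
    _ ≤ 2 ^ (4 * 2 ^ i) := Nat.pow_le_pow_right (by norm_num) (aux_pow i)
    _ ≤ 2 ^ (4 * (m - 1)) := Nat.pow_le_pow_right (by norm_num) (by omega)
    _ = 16 ^ (m - 1) := by rw [pow_mul]; norm_num

end Pool.Agent.Lib.MP_69a6f7_al
end

section

open MulAction
open scoped Classical

namespace Pool.Agent.Lib.MP_69a6f7_al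

section nonfaithful

variable (L : Type*) [Group L] [Group.IsSolvable L] (D : Type*) [Fintype D]
  [MulAction L D] [IsPreprimitive L D] [Nontrivial D]

theorem range_isPreprimitive (L : Type*) [Group L] (D : Type*)
    [MulAction L D] [IsPreprimitive L D] :
    IsPreprimitive (toPermHom L D).range D := by
  let f : D →ₑ[(toPermHom L D).rangeRestrict] D :=
    { toFun := id
      map_smul' := fun g x => rfl }
  exact IsPreprimitive.of_surjective (f := f) Function.surjective_id

theorem fixes_or_card_le (g : L) :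
    (∀ x : D, g • x = x) ∨
      Fintype.card D ≤ 2 * (Finset.univ.filter (fun x : D => g • x ≠ x)).card := by
  have := range_isPreprimitive L D
  have : Group.IsSolvable (toPermHom L D).range :=
    Group.isSolvable_of_surjective (f := (toPermHom L D).rangeRestrict)
      (toPermHom L D).rangeRestrict_surjective
  let g' : (toPermHom L D).range := (toPermHom L D).rangeRestrict g
  by_cases hg : g' = 1
  · left
    intro x
    have : (g' : Equiv.Perm D) x = x := by rw [hg]; rfl
    exact this
  · right
    exact card_le_two_mul_moved (toPermHom L D).range D g' hg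

theorem ker_index_le [Finite L] : (toPermHom L D).ker.index ≤ 16 ^ (Fintype.card D - 1) := by
  have := range_isPreprimitive L D
  have : Group.IsSolvable (toPermHom L D).range :=
    Group.isSolvable_of_surjective (f := (toPermHom L D).rangeRestrict)
      (toPermHom L D).rangeRestrict_surjective
  rw [Subgroup.index_ker]
  exact card_primitive_le (toPermHom L D).range D

end nonfaithful

theorem exists_primitive_quotient {G X : Type*} [Group G] [Finite G] [MulAction G X]
    (H : Subgroup G) (Y : Finset X) (a : X)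
    (htr : ∀ y ∈ Y, ∃ h ∈ H, h • a = y) (hcard : 1 < Y.card) :
    ∃ (M : Subgroup H) (p : X → H ⧸ M), IsPreprimitive H (H ⧸ M) ∧ Nontrivial (H ⧸ M) ∧
      (∀ (h : H), ∀ y ∈ Y, p ((h : G) • y) = h • p y) ∧ (∀ d : H ⧸ M, ∃ h : H, p ((h : G) • a) = d) := by
  have hne : stabilizer H a ≠ ⊤ := by
    intro htop
    have hsub : ∀ y ∈ Y, y = a := by
      intro y hy
      obtain ⟨h, hh, hya⟩ := htr y hy
      have : (⟨h, hh⟩ : H) ∈ stabilizer H a := by rw [htop]; trivial
      rw [← hya]
      exact this
    have : Y ⊆ {a} := by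
      intro y hy
      rw [Finset.mem_singleton]
      exact hsub y hy
    have := Finset.card_le_card this
    rw [Finset.card_singleton] at this
    omega
  obtain ⟨M, hM, hle⟩ := IsCoatomic.eq_top_or_exists_le_coatom (stabilizer H a) |>.resolve_left hne
  have hM1 : M ≠ ⊤ := hM.1
  have hnt : Nontrivial (H ⧸ M) := by
    have hex : ∃ g : H, g ∉ M := by
      by_contra hcon
      push Not at hcon
      exact hM1 ((Subgroup.eq_top_iff' M).mpr hcon)
    obtain ⟨g, hg⟩ := hex
    refine ⟨QuotientGroup.mk g, QuotientGroup.mk 1, ?_⟩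
    intro h
    rw [QuotientGroup.eq, mul_one] at h
    exact hg (M.inv_mem_iff.mp h)
  let p : X → H ⧸ M := fun x => if hx : ∃ h : H, (h : G) • a = x then
    (QuotientGroup.mk hx.choose) else QuotientGroup.mk 1
  have hp : ∀ h : H, p ((h : G) • a) = QuotientGroup.mk h := by
    intro h
    have hx : ∃ h' : H, (h' : G) • a = (h : G) • a := ⟨h, rfl⟩
    have h1 : p ((h : G) • a) = QuotientGroup.mk hx.choose := dif_pos hx
    rw [h1, QuotientGroup.eq]
    apply hle
    rw [mem_stabilizer_iff]
    have h2 := hx.choose_spec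
    have h3 : (hx.choose⁻¹ * h) • a = hx.choose⁻¹ • ((h : G) • a) := by
      rw [mul_smul]; rfl
    rw [h3, inv_smul_eq_iff]
    exact h2.symm
  refine ⟨M, p, ?_, hnt, ?_, ?_⟩
  · rw [← isCoatom_stabilizer_iff_preprimitive H ((1 : H) : H ⧸ M)]
    rw [MulAction.stabilizer_quotient]
    exact hM
  · intro h y hy
    obtain ⟨k, hk, rfl⟩ := htr y hy
    have h1 : (h : G) • k • a = ((h * ⟨k, hk⟩ : H) : G) • a := by
      rw [smul_smul]; rfl
    have h2 : k • a = ((⟨k, hk⟩ : H) : G) • a := rfl
    rw [h1, hp, h2, hp]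
    rfl
  · intro d
    obtain ⟨h, rfl⟩ := QuotientGroup.mk_surjective d
    exact ⟨h, hp h⟩

end Pool.Agent.Lib.MP_69a6f7_al
end

section

open MulAction
open scoped Classical

namespace Pool.Agent.Lib.MP_69a6f7_al

variable {G X : Type*} [Group G] [MulAction G X]

/-- `Y` is invariant under the subgroup `H`. -/
def Inv (H : Subgroup G) (Y : Finset X) : Prop := ∀ h ∈ H, ∀ y ∈ Y, h • y ∈ Y

/-- The fibre of `p` over `d` inside `Y`. -/
noncomputable def fib {H : Subgroup G} {M : Subgroup H} (p : X → H ⧸ M) (Y : Finset X)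
    (d : H ⧸ M) : Finset X := Y.filter (fun y => p y = d)

/-- The setwise stabiliser in `H` of the fibre over `d`. -/
def stab {H : Subgroup G} {M : Subgroup H} (d : H ⧸ M) : Subgroup G :=
  (stabilizer H d).map H.subtype

theorem stab_le {H : Subgroup G} {M : Subgroup H} (d : H ⧸ M) : stab d ≤ H := by
  rintro _ ⟨h, -, rfl⟩
  exact h.2

theorem mem_stab {H : Subgroup G} {M : Subgroup H} (d : H ⧸ M) (h : H) :
    (h : G) ∈ stab d ↔ h • d = d := by
  constructor
  · rintro ⟨k, hk, hkh⟩
    have : k = h := Subtype.ext hkh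
    rw [← this]
    exact hk
  · intro hh
    exact ⟨h, hh, rfl⟩

theorem fib_inv {H : Subgroup G} {M : Subgroup H} (p : X → H ⧸ M) (Y : Finset X)
    (hinv : Inv H Y) (hp : ∀ (h : H), ∀ y ∈ Y, p ((h : G) • y) = h • p y) (d : H ⧸ M) :
    Inv (stab d) (fib p Y d) := by
  rintro _ ⟨h, hh, rfl⟩ y hy
  rw [fib, Finset.mem_filter] at hy ⊢
  refine ⟨hinv _ h.2 _ hy.1, ?_⟩
  have := hp h y hy.1
  rw [hy.2] at this
  exact this.trans hh

theorem fib_card {H : Subgroup G} {M : Subgroup H} (p : X → H ⧸ M) (Y : Finset X)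
    (hinv : Inv H Y) (hp : ∀ (h : H), ∀ y ∈ Y, p ((h : G) • y) = h • p y) (d : H ⧸ M) (h : H) :
    (fib p Y (h • d)).card = (fib p Y d).card := by
  have key : ∀ (d : H ⧸ M) (h : H), (fib p Y d).card ≤ (fib p Y (h • d)).card := by
    intro d h
    apply Finset.card_le_card_of_injOn (fun y => (h : G) • y)
    · intro y hy
      rw [fib, Finset.coe_filter, Set.mem_ofPred_eq] at hy ⊢
      refine ⟨hinv _ h.2 _ hy.1, ?_⟩
      rw [hp h y hy.1, hy.2]
    · intro y _ z _ hyz
      exact smul_left_cancel _ hyz
  apply le_antisymm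
  · have := key (h • d) h⁻¹
    rwa [inv_smul_smul] at this
  · exact key d h

theorem block_induction [Finite G] (P : Subgroup G → Finset X → Prop)
    (one : ∀ (H : Subgroup G) (Y : Finset X), Y.card = 1 → Inv H Y → P H Y)
    (split : ∀ (H : Subgroup G) (Y₁ Y₂ : Finset X), Disjoint Y₁ Y₂ → Y₁.Nonempty → Y₂.Nonempty →
      Inv H Y₁ → Inv H Y₂ → P H Y₁ → P H Y₂ → P H (Y₁ ∪ Y₂))
    (step : ∀ (H : Subgroup G) (Y : Finset X), Group.IsSolvable H → Inv H Y →
      ∀ (M : Subgroup H) (p : X → H ⧸ M) (b : ℕ), IsPreprimitive H (H ⧸ M) → Nontrivial (H ⧸ M) →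
      (∀ (h : H), ∀ y ∈ Y, p ((h : G) • y) = h • p y) → (∀ d, (fib p Y d).card = b) → 0 < b →
      (∀ d, P (stab d) (fib p Y d)) → P H Y) :
    ∀ (H : Subgroup G) (Y : Finset X), Group.IsSolvable H → Inv H Y → Y.Nonempty → P H Y := by
  have main : ∀ n : ℕ, ∀ (H : Subgroup G) (Y : Finset X), Y.card = n → Group.IsSolvable H →
      Inv H Y → Y.Nonempty → P H Y := by
    intro n
    induction n using Nat.strong_induction_on with
    | _ n ih =>
      intro H Y hn hsol hinv hne
      obtain ⟨a, ha⟩ := hne
      have hpos : 0 < Y.card := Finset.card_pos.mpr ⟨a, ha⟩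
      by_cases h1 : Y.card = 1
      · exact one H Y h1 hinv
      · have hcard : 1 < Y.card := by omega
        by_cases htr : ∀ y ∈ Y, ∃ h ∈ H, h • a = y
        · obtain ⟨M, p, hprim, hnt, hp, hsurj⟩ := exists_primitive_quotient H Y a htr hcard
          -- all fibres have the same size
          obtain ⟨h0, hh0⟩ := hsurj (QuotientGroup.mk 1)
          have hfibne : ∀ d, (fib p Y d).Nonempty := by
            intro d
            obtain ⟨h, hh⟩ := hsurj d
            refine ⟨(h : G) • a, ?_⟩
            rw [fib, Finset.mem_filter]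
            exact ⟨hinv _ h.2 _ ha, hh⟩
          have hall : ∀ d : H ⧸ M, (fib p Y d).card = (fib p Y (QuotientGroup.mk 1)).card := by
            intro d
            obtain ⟨g, rfl⟩ := QuotientGroup.mk_surjective d
            have : (QuotientGroup.mk g : H ⧸ M) = g • (QuotientGroup.mk 1 : H ⧸ M) := by
              rw [MulAction.Quotient.smul_mk]
              simp
            rw [this, fib_card p Y hinv hp]
          have hlt : ∀ d : H ⧸ M, (fib p Y d).card < Y.card := by
            intro d
            obtain ⟨d', hd'⟩ := exists_ne d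
            obtain ⟨y, hy⟩ := hfibne d'
            apply Finset.card_lt_card
            rw [fib, Finset.ssubset_iff_of_subset (Finset.filter_subset _ _)]
            rw [fib, Finset.mem_filter] at hy
            refine ⟨y, hy.1, ?_⟩
            rw [Finset.mem_filter]
            rintro ⟨-, h2⟩
            exact hd' (hy.2.symm.trans h2)
          refine step H Y hsol hinv M p (fib p Y (QuotientGroup.mk 1)).card hprim hnt hp hall
            (Finset.card_pos.mpr (hfibne _)) ?_
          intro d
          have hsol' : Group.IsSolvable (stab d) := by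
            have h1 : Group.IsSolvable (stabilizer H d) := inferInstance
            exact Group.isSolvable_of_surjective
              (f := (H.subtype.subgroupMap (stabilizer H d)))
              (H.subtype.subgroupMap_surjective (stabilizer H d))
          exact ih (fib p Y d).card (by rw [← hn]; exact hlt d) (stab d) (fib p Y d) rfl hsol'
            (fib_inv p Y hinv hp d) (hfibne d)
        · push Not at htr
          obtain ⟨z, hz, hzn⟩ := htr
          set Y₁ := Y.filter (fun y => ∃ h ∈ H, h • a = y) with hY₁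
          set Y₂ := Y.filter (fun y => ¬ ∃ h ∈ H, h • a = y) with hY₂
          have hun : Y₁ ∪ Y₂ = Y := Finset.filter_union_filter_not_eq _ _
          have hdisj : Disjoint Y₁ Y₂ := Finset.disjoint_filter_filter_not _ _ _
          have hne1 : Y₁.Nonempty := ⟨a, by
            rw [hY₁, Finset.mem_filter]
            exact ⟨ha, 1, H.one_mem, one_smul _ _⟩⟩
          have hne2 : Y₂.Nonempty := ⟨z, by
            rw [hY₂, Finset.mem_filter]
            refine ⟨hz, ?_⟩
            rintro ⟨h, hh, hha⟩
            exact hzn h hh hha⟩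
          have hinv1 : Inv H Y₁ := by
            intro h hh y hy
            rw [hY₁, Finset.mem_filter] at hy ⊢
            obtain ⟨hyY, k, hk, hka⟩ := hy
            refine ⟨hinv h hh y hyY, h * k, H.mul_mem hh hk, ?_⟩
            rw [mul_smul, hka]
          have hinv2 : Inv H Y₂ := by
            intro h hh y hy
            rw [hY₂, Finset.mem_filter] at hy ⊢
            obtain ⟨hyY, hk⟩ := hy
            refine ⟨hinv h hh y hyY, ?_⟩
            rintro ⟨k, hkH, hka⟩
            apply hk
            refine ⟨h⁻¹ * k, H.mul_mem (H.inv_mem hh) hkH, ?_⟩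
            rw [mul_smul, hka, inv_smul_smul]
          have hc : Y₁.card + Y₂.card = Y.card := by
            rw [← Finset.card_union_of_disjoint hdisj, hun]
          have hc1 : 0 < Y₁.card := Finset.card_pos.mpr hne1
          have hc2 : 0 < Y₂.card := Finset.card_pos.mpr hne2
          rw [← hun]
          exact split H Y₁ Y₂ hdisj hne1 hne2 hinv1 hinv2
            (ih Y₁.card (by omega) H Y₁ rfl hsol hinv1 hne1)
            (ih Y₂.card (by omega) H Y₂ rfl hsol hinv2 hne2)
  intro H Y hsol hinv hne
  exact main Y.card H Y rfl hsol hinv hne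

end Pool.Agent.Lib.MP_69a6f7_al
end

section

open MulAction
open scoped Classical

namespace Pool.Agent.Lib.MP_69a6f7_al

variable {G X : Type*} [Group G] [MulAction G X]

theorem mem_fixing {Y : Finset X} {g : G} :
    g ∈ fixingSubgroup G (Y : Set X) ↔ ∀ y ∈ Y, g • y = y := by
  rw [mem_fixingSubgroup_iff]
  simp

omit [MulAction G X] in
theorem card_eq_mul {H : Subgroup G} {M : Subgroup H} [Fintype (H ⧸ M)] (p : X → H ⧸ M)
    (Y : Finset X) (b : ℕ) (hb : ∀ d, (fib p Y d).card = b) :
    Y.card = Fintype.card (H ⧸ M) * b := by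
  rw [Finset.card_eq_sum_card_fiberwise (f := p) (t := Finset.univ) (fun _ _ => Finset.mem_univ _)]
  have : ∀ d ∈ (Finset.univ : Finset (H ⧸ M)), (Y.filter (fun y => p y = d)).card = b :=
    fun d _ => hb d
  rw [Finset.sum_congr rfl this, Finset.sum_const, Finset.card_univ, smul_eq_mul]

/-- The order bound. -/
def OrdBound (H : Subgroup G) (Y : Finset X) : Prop :=
  (fixingSubgroup G (Y : Set X)).relIndex H ≤ 16 ^ (Y.card - 1)

theorem ordBound [Finite G] (H : Subgroup G) (Y : Finset X) (hsol : Group.IsSolvable H)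
    (hinv : Inv H Y) (hne : Y.Nonempty) : OrdBound H Y := by
  refine block_induction OrdBound ?_ ?_ ?_ H Y hsol hinv hne
  · intro H Y hc hinv
    have : (fixingSubgroup G (Y : Set X)).relIndex H = 1 := by
      rw [Subgroup.relIndex_eq_one]
      intro h hh
      rw [mem_fixing]
      intro y hy
      obtain ⟨a, rfl⟩ := Finset.card_eq_one.mp hc
      rw [Finset.mem_singleton] at hy
      subst hy
      have := hinv h hh y (Finset.mem_singleton_self _)
      rwa [Finset.mem_singleton] at this
    rw [OrdBound, this]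
    exact Nat.one_le_pow _ _ (by norm_num)
  · intro H Y₁ Y₂ hdisj hne1 hne2 _ _ h1 h2
    have hinf : fixingSubgroup G ((Y₁ ∪ Y₂ : Finset X) : Set X)
        = fixingSubgroup G (Y₁ : Set X) ⊓ fixingSubgroup G (Y₂ : Set X) := by
      ext g
      rw [Subgroup.mem_inf, mem_fixing, mem_fixing, mem_fixing]
      constructor
      · intro h
        exact ⟨fun y hy => h y (Finset.mem_union_left _ hy),
          fun y hy => h y (Finset.mem_union_right _ hy)⟩
      · rintro ⟨ha, hb⟩ y hy
        rcases Finset.mem_union.mp hy with hy | hy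
        · exact ha y hy
        · exact hb y hy
    have hp1 : 0 < Y₁.card := Finset.card_pos.mpr hne1
    have hp2 : 0 < Y₂.card := Finset.card_pos.mpr hne2
    rw [OrdBound] at h1 h2 ⊢
    rw [hinf]
    calc (fixingSubgroup G (Y₁ : Set X) ⊓ fixingSubgroup G (Y₂ : Set X)).relIndex H
        ≤ (fixingSubgroup G (Y₁ : Set X)).relIndex H *
          (fixingSubgroup G (Y₂ : Set X)).relIndex H := Subgroup.relIndex_inf_le
      _ ≤ 16 ^ (Y₁.card - 1) * 16 ^ (Y₂.card - 1) := Nat.mul_le_mul h1 h2
      _ = 16 ^ (Y₁.card - 1 + (Y₂.card - 1)) := by rw [pow_add]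
      _ ≤ 16 ^ ((Y₁ ∪ Y₂).card - 1) := by
        apply Nat.pow_le_pow_right (by norm_num)
        rw [Finset.card_union_of_disjoint hdisj]
        omega
  · intro H Y hsol hinv M p b hprim hnt hp hb hbpos ih
    have : Fintype (H ⧸ M) := Fintype.ofFinite _
    have hcard := card_eq_mul p Y b hb
    set N : Subgroup G := (toPermHom H (H ⧸ M)).ker.map H.subtype with hN
    have hNH : N ≤ H := by
      rintro _ ⟨h, -, rfl⟩
      exact h.2
    have hNstab : ∀ d : H ⧸ M, N ≤ stab d := by
      rintro d _ ⟨h, hh, rfl⟩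
      have h1 : toPermHom H (H ⧸ M) h = 1 := hh
      have h2 : h • d = d := by
        have : (toPermHom H (H ⧸ M) h) d = d := by rw [h1]; rfl
        exact this
      exact (mem_stab d h).mpr h2
    have hNidx : N.relIndex H ≤ 16 ^ (Fintype.card (H ⧸ M) - 1) := by
      have h1 : N.relIndex H = (toPermHom H (H ⧸ M)).ker.index := by
        rw [hN, Subgroup.relIndex]
        congr 1
        rw [Subgroup.subgroupOf, Subgroup.comap_map_eq_self_of_injective H.subtype_injective]
      rw [h1]
      exact ker_index_le H (H ⧸ M)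
    set F := fixingSubgroup G (Y : Set X) with hF
    have hFH : F ⊓ H ≤ N := by
      intro g hg
      rw [Subgroup.mem_inf] at hg
      refine ⟨⟨g, hg.2⟩, ?_, rfl⟩
      change toPermHom H (H ⧸ M) ⟨g, hg.2⟩ = 1
      ext d
      have hdne : (fib p Y d).Nonempty := by
        rw [← Finset.card_pos, hb d]
        exact hbpos
      obtain ⟨y, hy⟩ := hdne
      rw [fib, Finset.mem_filter] at hy
      have h1 := hp ⟨g, hg.2⟩ y hy.1
      have h2 : g • y = y := mem_fixing.mp hg.1 y hy.1
      rw [hy.2] at h1
      have h3 : p (g • y) = d := by rw [h2]; exact hy.2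
      exact h1.symm.trans h3
    have hFi : F = ⨅ d : H ⧸ M, fixingSubgroup G ((fib p Y d : Finset X) : Set X) := by
      ext g
      rw [Subgroup.mem_iInf, hF, mem_fixing]
      constructor
      · intro h d
        rw [mem_fixing]
        intro y hy
        rw [fib, Finset.mem_filter] at hy
        exact h y hy.1
      · intro h y hy
        have := h (p y)
        rw [mem_fixing] at this
        apply this
        rw [fib, Finset.mem_filter]
        exact ⟨hy, rfl⟩
    have hFN : F.relIndex N ≤ (16 ^ (b - 1)) ^ (Fintype.card (H ⧸ M)) := by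
      rw [hFi]
      calc (⨅ d : H ⧸ M, fixingSubgroup G ((fib p Y d : Finset X) : Set X)).relIndex N
          ≤ ∏ d : H ⧸ M, (fixingSubgroup G ((fib p Y d : Finset X) : Set X)).relIndex N :=
            Subgroup.relIndex_iInf_le _
        _ ≤ ∏ d : H ⧸ M, 16 ^ (b - 1) := by
            apply Finset.prod_le_prod
            · intro i _
              exact Nat.zero_le _
            · intro d _
              have h1 := ih d
              rw [OrdBound, hb d] at h1
              refine le_trans ?_ h1
              apply Subgroup.relIndex_le_of_le_right (hNstab d)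
              rw [Subgroup.relIndex]
              exact Subgroup.index_ne_zero_of_finite
        _ = (16 ^ (b - 1)) ^ (Fintype.card (H ⧸ M)) := by
            rw [Finset.prod_const, Finset.card_univ]
    have hmul : F.relIndex H = F.relIndex N * N.relIndex H := by
      have h1 : (F ⊓ H).relIndex N * N.relIndex H = (F ⊓ H).relIndex H :=
        Subgroup.relIndex_mul_relIndex (F ⊓ H) N H hFH hNH
      rw [Subgroup.inf_relIndex_right] at h1
      rw [← h1]
      congr 1
      rw [← Subgroup.inf_relIndex_right (F ⊓ H) N, ← Subgroup.inf_relIndex_right F N]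
      congr 1
      ext g
      rw [Subgroup.mem_inf, Subgroup.mem_inf, Subgroup.mem_inf]
      constructor
      · rintro ⟨⟨h1, _⟩, h2⟩
        exact ⟨h1, h2⟩
      · rintro ⟨h1, h2⟩
        exact ⟨⟨h1, hNH h2⟩, h2⟩
    change F.relIndex H ≤ 16 ^ (Y.card - 1)
    rw [hmul]
    calc F.relIndex N * N.relIndex H
        ≤ (16 ^ (b - 1)) ^ (Fintype.card (H ⧸ M)) * 16 ^ (Fintype.card (H ⧸ M) - 1) :=
          Nat.mul_le_mul hFN hNidx
      _ = 16 ^ ((b - 1) * Fintype.card (H ⧸ M) + (Fintype.card (H ⧸ M) - 1)) := by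
          rw [← pow_mul, pow_add]
      _ ≤ 16 ^ (Y.card - 1) := by
          apply Nat.pow_le_pow_right (by norm_num)
          rw [hcard]
          have hm : 0 < Fintype.card (H ⧸ M) := Fintype.card_pos
          obtain ⟨c, rfl⟩ : ∃ c, b = c + 1 := ⟨b - 1, by omega⟩
          simp only [Nat.add_sub_cancel]
          rw [Nat.mul_add, mul_one, mul_comm c]
          omega

theorem relIndex_le [Finite G] (H : Subgroup G) (Y : Finset X) (hsol : Group.IsSolvable H)
    (hinv : Inv H Y) (hne : Y.Nonempty) :
    (fixingSubgroup G (Y : Set X)).relIndex H ≤ 16 ^ (Y.card - 1) :=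
  ordBound H Y hsol hinv hne

end Pool.Agent.Lib.MP_69a6f7_al
end

section

open MulAction
open scoped Classical

namespace Pool.Agent.Lib.MP_69a6f7_al

variable {G X : Type*} [Group G] [MulAction G X]

/-- The set of points of `Y` moved by `g`. -/
noncomputable def Supp (Y : Finset X) (g : G) : Finset X := Y.filter (fun x => g • x ≠ x)

/-- All the supports inside `Y` of elements of `H`. -/
noncomputable def Supps (H : Subgroup G) (Y : Finset X) : Finset (Finset X) :=
  Y.powerset.filter (fun S => ∃ h ∈ H, Supp Y h = S)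

/-- The support enumerator. -/
noncomputable def Zf (t : ℝ) (H : Subgroup G) (Y : Finset X) : ℝ := ∑ S ∈ Supps H Y, t ^ S.card

theorem mem_Supps {H : Subgroup G} {Y S : Finset X} :
    S ∈ Supps H Y ↔ ∃ h ∈ H, Supp Y h = S := by
  rw [Supps, Finset.mem_filter, Finset.mem_powerset]
  constructor
  · exact fun h => h.2
  · rintro ⟨h, hh, rfl⟩
    exact ⟨Finset.filter_subset _ _, h, hh, rfl⟩

/-- The claimed bound. -/
def ZBound (t : ℝ) (H : Subgroup G) (Y : Finset X) : Prop :=
  Zf t H Y ≤ Real.exp (16 * t ^ 2 * ((Y.card : ℝ) - 1))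

theorem zBound_one (t : ℝ) (H : Subgroup G) (Y : Finset X) (hc : Y.card = 1) (hinv : Inv H Y) :
    ZBound t H Y := by
  obtain ⟨a, rfl⟩ := Finset.card_eq_one.mp hc
  have : Supps H ({a} : Finset X) = {∅} := by
    ext S
    rw [mem_Supps, Finset.mem_singleton]
    constructor
    · rintro ⟨h, hh, rfl⟩
      rw [Supp, Finset.filter_eq_empty_iff]
      intro x hx hne
      rw [Finset.mem_singleton] at hx
      subst hx
      have := hinv h hh x (Finset.mem_singleton_self _)
      rw [Finset.mem_singleton] at this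
      exact hne this
    · rintro rfl
      refine ⟨1, H.one_mem, ?_⟩
      rw [Supp, Finset.filter_eq_empty_iff]
      intro x _ hne
      exact hne (one_smul _ _)
  rw [ZBound, Zf, this]
  simp

theorem zf_union {t : ℝ} (ht : 0 ≤ t) (H : Subgroup G) (Y₁ Y₂ : Finset X)
    (hdisj : Disjoint Y₁ Y₂) : Zf t H (Y₁ ∪ Y₂) ≤ Zf t H Y₁ * Zf t H Y₂ := by
  rw [Zf, Zf, Zf, Finset.sum_mul_sum, ← Finset.sum_product']
  let F : Finset X → Finset X × Finset X := fun S => (S ∩ Y₁, S ∩ Y₂)
  have hsub : ∀ S ∈ Supps H (Y₁ ∪ Y₂), S ⊆ Y₁ ∪ Y₂ := by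
    intro S hS
    rw [Supps, Finset.mem_filter, Finset.mem_powerset] at hS
    exact hS.1
  have hrec : ∀ S ∈ Supps H (Y₁ ∪ Y₂), S = (F S).1 ∪ (F S).2 := by
    intro S hS
    change S = S ∩ Y₁ ∪ S ∩ Y₂
    rw [← Finset.inter_union_distrib_left]
    exact (Finset.inter_eq_left.mpr (hsub S hS)).symm
  have hinj : Set.InjOn F (Supps H (Y₁ ∪ Y₂) : Set (Finset X)) := by
    intro S hS T hT hST
    rw [hrec S hS, hrec T hT, hST]
  have hcardS : ∀ S ∈ Supps H (Y₁ ∪ Y₂), t ^ S.card = t ^ (F S).1.card * t ^ (F S).2.card := by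
    intro S hS
    rw [← pow_add]
    congr 1
    conv_lhs => rw [hrec S hS]
    apply Finset.card_union_of_disjoint
    exact hdisj.mono Finset.inter_subset_right Finset.inter_subset_right
  rw [Finset.sum_congr rfl hcardS]
  rw [← Finset.sum_image (s := Supps H (Y₁ ∪ Y₂)) (g := F)
    (f := fun q : Finset X × Finset X => t ^ q.1.card * t ^ q.2.card) hinj]
  apply Finset.sum_le_sum_of_subset_of_nonneg
  · intro q hq
    rw [Finset.mem_image] at hq
    obtain ⟨S, hS, rfl⟩ := hq
    rw [mem_Supps] at hS
    obtain ⟨h, hh, rfl⟩ := hS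
    rw [Finset.mem_product, mem_Supps, mem_Supps]
    constructor
    · refine ⟨h, hh, ?_⟩
      ext x
      simp only [F, Supp, Finset.mem_filter, Finset.mem_inter, Finset.mem_union]
      tauto
    · refine ⟨h, hh, ?_⟩
      ext x
      simp only [F, Supp, Finset.mem_filter, Finset.mem_inter, Finset.mem_union]
      tauto
  · intro q _ _
    positivity

theorem zf_nonneg {t : ℝ} (ht : 0 ≤ t) (H : Subgroup G) (Y : Finset X) : 0 ≤ Zf t H Y := by
  rw [Zf]
  positivity

theorem zBound_split {t : ℝ} (ht : 0 ≤ t) (H : Subgroup G) (Y₁ Y₂ : Finset X)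
    (hdisj : Disjoint Y₁ Y₂) (h1 : ZBound t H Y₁) (h2 : ZBound t H Y₂) :
    ZBound t H (Y₁ ∪ Y₂) := by
  rw [ZBound] at h1 h2 ⊢
  calc Zf t H (Y₁ ∪ Y₂) ≤ Zf t H Y₁ * Zf t H Y₂ := zf_union ht H Y₁ Y₂ hdisj
    _ ≤ Real.exp (16 * t ^ 2 * ((Y₁.card : ℝ) - 1)) * Real.exp (16 * t ^ 2 * ((Y₂.card : ℝ) - 1)) :=
        mul_le_mul h1 h2 (zf_nonneg ht _ _) (Real.exp_pos _).le
    _ = Real.exp (16 * t ^ 2 * ((Y₁.card : ℝ) + Y₂.card - 2)) := by
        rw [← Real.exp_add]
        congr 1
        ring
    _ ≤ _ := by
        apply Real.exp_le_exp.mpr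
        rw [Finset.card_union_of_disjoint hdisj]
        push_cast
        have : 0 ≤ t ^ 2 := sq_nonneg t
        nlinarith

/-- Subsets of the quotient moved by elements. -/
noncomputable def movedSets {H : Subgroup G} (M : Subgroup H) [Fintype (H ⧸ M)] :
    Finset (Finset (H ⧸ M)) :=
  Finset.univ.filter (fun T => ∃ h : H, Finset.univ.filter (fun d : H ⧸ M => h • d ≠ d) = T)

theorem zf_step_aux {t : ℝ} (ht : 0 ≤ t) (H : Subgroup G) (Y : Finset X) (hinv : Inv H Y)
    (M : Subgroup H) [Fintype (H ⧸ M)] (p : X → H ⧸ M) (b : ℕ)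
    (hp : ∀ (h : H), ∀ y ∈ Y, p ((h : G) • y) = h • p y) (hb : ∀ d, (fib p Y d).card = b) :
    Zf t H Y ≤ ∑ T ∈ movedSets M, ∏ d : H ⧸ M, (if d ∈ T then t ^ b else Zf t (stab d) (fib p Y d)) := by
  -- rewrite the product as a sum over a pi finset
  let A : Finset (H ⧸ M) → (d : H ⧸ M) → Finset (Finset X) := fun T d =>
    if d ∈ T then {fib p Y d} else Supps (stab d) (fib p Y d)
  have hprod : ∀ T ∈ movedSets M,
      ∏ d : H ⧸ M, (if d ∈ T then t ^ b else Zf t (stab d) (fib p Y d))
        = ∑ f ∈ Fintype.piFinset (A T), ∏ d : H ⧸ M, t ^ (f d).card := by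
    intro T _
    have hpus := Finset.prod_univ_sum (A T) (fun (_ : H ⧸ M) (S : Finset X) => t ^ S.card)
    rw [← hpus]
    apply Finset.prod_congr rfl
    intro d _
    by_cases hd : d ∈ T
    · simp only [A, hd, if_true, Finset.sum_singleton, hb]
    · simp only [A, hd, if_false, Zf]
  rw [Finset.sum_congr rfl hprod, ← Finset.sum_sigma (movedSets M) (fun T => Fintype.piFinset (A T))
    (fun q : (Σ _ : Finset (H ⧸ M), ((H ⧸ M) → Finset X)) => ∏ d : H ⧸ M, t ^ (q.2 d).card)]
  have hch : ∀ S : Finset X, S ∈ Supps H Y → ∃ h : H, Supp Y (h : G) = S := by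
    intro S hS
    obtain ⟨h, hh, hS'⟩ := mem_Supps.mp hS
    exact ⟨⟨h, hh⟩, hS'⟩
  let hsel : Finset X → H := fun S => if hS : S ∈ Supps H Y then (hch S hS).choose else 1
  have hselspec : ∀ S ∈ Supps H Y, Supp Y (hsel S : G) = S := by
    intro S hS
    simp only [hsel, dif_pos hS]
    exact (hch S hS).choose_spec
  let F : Finset X → (Σ _ : Finset (H ⧸ M), ((H ⧸ M) → Finset X)) := fun S =>
    ⟨Finset.univ.filter (fun d : H ⧸ M => hsel S • d ≠ d), fun d => S.filter (fun x => p x = d)⟩
  have hrec : ∀ S : Finset X, S = Finset.univ.biUnion (F S).2 := by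
    intro S
    ext x
    simp [F]
  have hinj : Set.InjOn F (Supps H Y : Set (Finset X)) := by
    intro S _ T _ hST
    rw [hrec S, hrec T, hST]
  have hcard : ∀ S ∈ Supps H Y, t ^ S.card = ∏ d : H ⧸ M, t ^ ((F S).2 d).card := by
    intro S _
    rw [Finset.prod_pow_eq_pow_sum]
    congr 1
    exact Finset.card_eq_sum_card_fiberwise (f := p) (t := Finset.univ)
      (fun _ _ => Finset.mem_univ _)
  rw [Zf, Finset.sum_congr rfl hcard]
  rw [← Finset.sum_image (s := Supps H Y) (g := F)
    (f := fun q : (Σ _ : Finset (H ⧸ M), ((H ⧸ M) → Finset X)) =>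
      ∏ d : H ⧸ M, t ^ (q.2 d).card) hinj]
  apply Finset.sum_le_sum_of_subset_of_nonneg
  · intro q hq
    rw [Finset.mem_image] at hq
    obtain ⟨S, hS, rfl⟩ := hq
    have hSh := hselspec S hS
    rw [Finset.mem_sigma]
    constructor
    · rw [movedSets, Finset.mem_filter]
      exact ⟨Finset.mem_univ _, hsel S, rfl⟩
    · rw [Fintype.mem_piFinset]
      intro d
      have hYp : ∀ y ∈ Y, p ((hsel S : G) • y) = hsel S • p y := hp (hsel S)
      by_cases hd : hsel S • d = d
      · have hdn : d ∉ Finset.univ.filter (fun d : H ⧸ M => hsel S • d ≠ d) := by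
          rw [Finset.mem_filter]
          rintro ⟨-, h⟩
          exact h hd
        change S.filter (fun x => p x = d) ∈ A (Finset.univ.filter (fun d : H ⧸ M => hsel S • d ≠ d)) d
        simp only [A, if_neg hdn]
        rw [mem_Supps]
        refine ⟨hsel S, (mem_stab d _).mpr hd, ?_⟩
        ext x
        rw [Supp, fib, Finset.mem_filter, Finset.mem_filter, Finset.mem_filter]
        conv_rhs => rw [← hSh]
        rw [Supp, Finset.mem_filter]
        tauto
      · have hdn : d ∈ Finset.univ.filter (fun d : H ⧸ M => hsel S • d ≠ d) := by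
          rw [Finset.mem_filter]
          exact ⟨Finset.mem_univ _, hd⟩
        change S.filter (fun x => p x = d) ∈ A (Finset.univ.filter (fun d : H ⧸ M => hsel S • d ≠ d)) d
        simp only [A, if_pos hdn]
        rw [Finset.mem_singleton]
        ext x
        rw [fib, Finset.mem_filter, Finset.mem_filter]
        conv_lhs => rw [← hSh]
        rw [Supp, Finset.mem_filter]
        constructor
        · rintro ⟨⟨h1, _⟩, h3⟩
          exact ⟨h1, h3⟩
        · rintro ⟨h1, h3⟩
          refine ⟨⟨h1, ?_⟩, h3⟩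
          intro heq
          apply hd
          have := hYp x h1
          rw [heq, h3] at this
          exact this.symm
  · intro q _ _
    positivity

theorem moved_card {H : Subgroup G} (hsol : Group.IsSolvable H) (M : Subgroup H)
    [Fintype (H ⧸ M)] (hprim : IsPreprimitive H (H ⧸ M)) (hnt : Nontrivial (H ⧸ M))
    (T : Finset (H ⧸ M)) (hT : T ∈ movedSets M) (hne : T ≠ ∅) :
    2 ≤ T.card ∧ Fintype.card (H ⧸ M) ≤ 2 * T.card := by
  rw [movedSets, Finset.mem_filter] at hT
  obtain ⟨-, h, rfl⟩ := hT
  constructor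
  · obtain ⟨d, hd⟩ := Finset.nonempty_iff_ne_empty.mpr hne
    have hd' := hd
    rw [Finset.mem_filter] at hd'
    have h1 : h • d ∈ Finset.univ.filter (fun d : H ⧸ M => h • d ≠ d) := by
      rw [Finset.mem_filter]
      refine ⟨Finset.mem_univ _, ?_⟩
      intro heq
      exact hd'.2 (smul_left_cancel _ heq)
    have : 1 < (Finset.univ.filter (fun d : H ⧸ M => h • d ≠ d)).card :=
      Finset.one_lt_card.mpr ⟨h • d, h1, d, hd, hd'.2⟩
    omega
  · rcases fixes_or_card_le H (H ⧸ M) h with hfix | hle
    · exfalso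
      apply hne
      rw [Finset.filter_eq_empty_iff]
      intro d _ hd
      exact hd (hfix d)
    · convert hle

theorem pow_bound {t : ℝ} (ht : 0 ≤ t) (ht' : t ≤ 1 / 16) (m c : ℕ) (hm : 2 ≤ m) (hc : 2 ≤ c)
    (hmc : m ≤ 2 * c) : 2 ^ m * t ^ c ≤ 16 * t ^ 2 * ((m : ℝ) - 1) := by
  obtain ⟨k, rfl⟩ : ∃ k, c = k + 2 := ⟨c - 2, by omega⟩
  have h1 : (2 : ℝ) ^ m ≤ 16 * 4 ^ k := by
    calc (2 : ℝ) ^ m ≤ 2 ^ (2 * (k + 2)) := pow_le_pow_right₀ (by norm_num) hmc
      _ = 16 * 4 ^ k := by
        rw [pow_mul, pow_add]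
        norm_num
        ring
  have h2 : t ^ k ≤ (1 / 16) ^ k := pow_le_pow_left₀ ht ht' k
  have h3 : (2 : ℝ) ^ m * t ^ k ≤ 16 := by
    calc (2 : ℝ) ^ m * t ^ k ≤ (16 * 4 ^ k) * (1 / 16) ^ k :=
          mul_le_mul h1 h2 (pow_nonneg ht _) (by positivity)
      _ = 16 * (1 / 4) ^ k := by
          rw [mul_assoc, ← mul_pow]
          norm_num
      _ ≤ 16 * 1 := by
          apply mul_le_mul_of_nonneg_left _ (by norm_num)
          exact pow_le_one₀ (by norm_num) (by norm_num)
      _ = 16 := by norm_num
  have hm' : (1 : ℝ) ≤ (m : ℝ) - 1 := by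
    have : (2 : ℝ) ≤ m := by exact_mod_cast hm
    linarith
  have ht2 : 0 ≤ t ^ 2 := sq_nonneg t
  calc (2 : ℝ) ^ m * t ^ (k + 2) = (2 ^ m * t ^ k) * t ^ 2 := by ring
    _ ≤ 16 * t ^ 2 := mul_le_mul_of_nonneg_right h3 ht2
    _ ≤ 16 * t ^ 2 * ((m : ℝ) - 1) := by nlinarith

theorem sum_moved_le {t : ℝ} (ht : 0 ≤ t) (ht' : t ≤ 1 / 16) {H : Subgroup G}
    (hsol : Group.IsSolvable H) (M : Subgroup H) [Fintype (H ⧸ M)]
    (hprim : IsPreprimitive H (H ⧸ M)) (hnt : Nontrivial (H ⧸ M)) :
    ∑ T ∈ movedSets M, t ^ T.card ≤ Real.exp (16 * t ^ 2 * ((Fintype.card (H ⧸ M) : ℝ) - 1)) := by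
  set m := Fintype.card (H ⧸ M) with hm
  have hm2 : 2 ≤ m := Fintype.one_lt_card
  have hterm : ∀ T ∈ movedSets M, t ^ T.card ≤
      (if T = ∅ then 1 else 0) + 16 * t ^ 2 * ((m : ℝ) - 1) / 2 ^ m := by
    intro T hT
    have hm' : (0 : ℝ) ≤ (m : ℝ) - 1 := by
      have : (2 : ℝ) ≤ m := by exact_mod_cast hm2
      linarith
    by_cases hTe : T = ∅
    · rw [if_pos hTe, hTe, Finset.card_empty, pow_zero]
      have : 0 ≤ 16 * t ^ 2 * ((m : ℝ) - 1) / 2 ^ m := by positivity
      linarith
    · rw [if_neg hTe, zero_add, le_div_iff₀ (by positivity)]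
      obtain ⟨h1, h2⟩ := moved_card hsol M hprim hnt T hT hTe
      have := pow_bound ht ht' m T.card hm2 h1 h2
      linarith [mul_comm ((2:ℝ) ^ m) (t ^ T.card)]
  have hcard : ((movedSets M).card : ℝ) ≤ 2 ^ m := by
    have h1 : (movedSets M).card ≤ (Finset.univ : Finset (Finset (H ⧸ M))).card :=
      Finset.card_le_card (Finset.filter_subset _ _)
    rw [Finset.card_univ, Fintype.card_finset] at h1
    exact_mod_cast h1
  have hm' : (0 : ℝ) ≤ (m : ℝ) - 1 := by
    have : (2 : ℝ) ≤ m := by exact_mod_cast hm2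
    linarith
  calc ∑ T ∈ movedSets M, t ^ T.card
      ≤ ∑ T ∈ movedSets M, ((if T = ∅ then 1 else 0) + 16 * t ^ 2 * ((m : ℝ) - 1) / 2 ^ m) :=
        Finset.sum_le_sum hterm
    _ = ∑ T ∈ movedSets M, (if T = ∅ then (1:ℝ) else 0)
        + (movedSets M).card * (16 * t ^ 2 * ((m : ℝ) - 1) / 2 ^ m) := by
        rw [Finset.sum_add_distrib, Finset.sum_const, nsmul_eq_mul]
    _ ≤ 1 + 2 ^ m * (16 * t ^ 2 * ((m : ℝ) - 1) / 2 ^ m) := by
        apply add_le_add
        · rw [Finset.sum_ite_eq']
          split_ifs <;> norm_num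
        · apply mul_le_mul_of_nonneg_right hcard
          positivity
    _ = 16 * t ^ 2 * ((m : ℝ) - 1) + 1 := by
        field_simp
        ring
    _ ≤ Real.exp (16 * t ^ 2 * ((m : ℝ) - 1)) := Real.add_one_le_exp _

theorem zBound_step {t : ℝ} (ht : 0 ≤ t) (ht' : t ≤ 1 / 16) [Finite G] (H : Subgroup G)
    (Y : Finset X) (hsol : Group.IsSolvable H) (hinv : Inv H Y)
    (M : Subgroup H) (p : X → H ⧸ M) (b : ℕ) (hprim : IsPreprimitive H (H ⧸ M))
    (hnt : Nontrivial (H ⧸ M)) (hp : ∀ (h : H), ∀ y ∈ Y, p ((h : G) • y) = h • p y)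
    (hb : ∀ d, (fib p Y d).card = b) (hbpos : 0 < b)
    (ih : ∀ d, ZBound t (stab d) (fib p Y d)) : ZBound t H Y := by
  have : Fintype (H ⧸ M) := Fintype.ofFinite _
  have hcard := card_eq_mul p Y b hb
  have hm2 : 2 ≤ Fintype.card (H ⧸ M) := Fintype.one_lt_card
  have ht2 : 0 ≤ t ^ 2 := sq_nonneg t
  have hb1 : (0 : ℝ) ≤ (b : ℝ) - 1 := by
    have : (1 : ℝ) ≤ b := by exact_mod_cast hbpos
    linarith
  set E := Real.exp (16 * t ^ 2 * ((b : ℝ) - 1)) with hE
  have hE1 : 1 ≤ E := by
    rw [hE]
    apply Real.one_le_exp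
    positivity
  rw [ZBound]
  calc Zf t H Y ≤ ∑ T ∈ movedSets M, ∏ d : H ⧸ M,
        (if d ∈ T then t ^ b else Zf t (stab d) (fib p Y d)) :=
        zf_step_aux ht H Y hinv M p b hp hb
    _ ≤ ∑ T ∈ movedSets M, t ^ T.card * E ^ (Fintype.card (H ⧸ M)) := by
        apply Finset.sum_le_sum
        intro T _
        calc ∏ d : H ⧸ M, (if d ∈ T then t ^ b else Zf t (stab d) (fib p Y d))
            ≤ ∏ d : H ⧸ M, ((if d ∈ T then t else 1) * E) := by
              apply Finset.prod_le_prod
              · intro d _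
                split_ifs
                · positivity
                · exact zf_nonneg ht _ _
              · intro d _
                by_cases hd : d ∈ T
                · rw [if_pos hd, if_pos hd]
                  calc t ^ b ≤ t ^ 1 := pow_le_pow_of_le_one ht (by linarith) hbpos
                    _ = t * 1 := by ring
                    _ ≤ t * E := mul_le_mul_of_nonneg_left hE1 ht
                · rw [if_neg hd, if_neg hd, one_mul]
                  have := ih d
                  rw [ZBound, hb d] at this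
                  exact this
          _ = t ^ T.card * E ^ (Fintype.card (H ⧸ M)) := by
              rw [Finset.prod_mul_distrib, Finset.prod_const, Finset.card_univ]
              congr 1
              rw [Finset.prod_ite_mem, Finset.univ_inter, Finset.prod_const]
    _ = (∑ T ∈ movedSets M, t ^ T.card) * E ^ (Fintype.card (H ⧸ M)) := by
        rw [Finset.sum_mul]
    _ ≤ Real.exp (16 * t ^ 2 * ((Fintype.card (H ⧸ M) : ℝ) - 1)) * E ^ (Fintype.card (H ⧸ M)) := by
        apply mul_le_mul_of_nonneg_right (sum_moved_le ht ht' hsol M hprim hnt)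
        positivity
    _ = Real.exp (16 * t ^ 2 * ((Y.card : ℝ) - 1)) := by
        rw [hE, ← Real.exp_nat_mul, ← Real.exp_add]
        congr 1
        rw [hcard]
        push_cast
        ring

theorem zf_le {t : ℝ} (ht : 0 ≤ t) (ht' : t ≤ 1 / 16) [Finite G] (H : Subgroup G)
    (Y : Finset X) (hsol : Group.IsSolvable H) (hinv : Inv H Y) (hne : Y.Nonempty) :
    Zf t H Y ≤ Real.exp (16 * t ^ 2 * ((Y.card : ℝ) - 1)) :=
  block_induction (ZBound t) (fun H Y hc hinv => zBound_one t H Y hc hinv)
    (fun H Y₁ Y₂ hd _ _ _ _ h1 h2 => zBound_split ht H Y₁ Y₂ hd h1 h2)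
    (fun H Y hsol hinv M p b hprim hnt hp hb hbpos ih =>
      zBound_step ht ht' H Y hsol hinv M p b hprim hnt hp hb hbpos ih) H Y hsol hinv hne

end Pool.Agent.Lib.MP_69a6f7_al
end
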