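import Mathlib
import Pool.Agent.Lib.MP_69a6f7_al.Supports

section

open scoped Classical Nat

namespace Pool.Agent.Lib.MP_69a6f7_al

variable {X : Type*} [Fintype X]

/-- Permutations with two prescribed values. -/
theorem card_two_values_le (a b c d : X) (hab : a ≠ b) :
    (Finset.univ.filter (fun x : Equiv.Perm X => x a = c ∧ x b = d)).card ≤
      (Fintype.card X - 2)! := by
  rcases (Finset.univ.filter (fun x : Equiv.Perm X => x a = c ∧ x b = d)).eq_empty_or_nonempty
    with h | ⟨x0, hx0⟩
  · rw [h, Finset.card_empty]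
    exact Nat.zero_le _
  · rw [Finset.mem_filter] at hx0
    have h1 : Fintype.card (Equiv.Perm {y // y ≠ a ∧ y ≠ b}) = (Fintype.card X - 2)! := by
      rw [Fintype.card_perm]
      congr 1
      rw [Fintype.card_subtype]
      have : (Finset.univ.filter (fun y => y ≠ a ∧ y ≠ b)) = ({a, b} : Finset X)ᶜ := by
        ext y
        simp
      rw [this, Finset.card_compl, Finset.card_pair hab]
    rw [← h1, Fintype.card_congr (Equiv.Perm.subtypeEquivSubtypePerm (fun y => y ≠ a ∧ y ≠ b)),
      Fintype.card_subtype]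
    apply Finset.card_le_card_of_injOn (fun x => x0⁻¹ * x)
    · intro x hx
      rw [Finset.coe_filter, Set.mem_ofPred_eq] at hx ⊢
      refine ⟨Finset.mem_univ _, ?_⟩
      intro y hy
      have : y = a ∨ y = b := by tauto
      rw [Equiv.Perm.mul_apply, Equiv.Perm.inv_eq_iff_eq]
      rcases this with rfl | rfl
      · rw [hx.2.1, hx0.2.1]
      · rw [hx.2.2, hx0.2.2]
    · intro x _ y _ hxy
      exact mul_left_cancel hxy

section

variable (E E' : X → X → Prop)

/-- Ordered pairs joined in `E'` and mapped by `x` to pairs joined in `E`. -/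
noncomputable def Com (x : Equiv.Perm X) : Finset (X × X) :=
  Finset.univ.filter (fun q => E' q.1 q.2 ∧ E (x q.1) (x q.2))

theorem mem_Com {x : Equiv.Perm X} {q : X × X} :
    q ∈ Com E E' x ↔ E' q.1 q.2 ∧ E (x q.1) (x q.2) := by
  rw [Com, Finset.mem_filter]
  simp

variable {E E'}

theorem card_edges_le (hE : ∀ a, (Finset.univ.filter (fun b => E a b)).card ≤ 3) :
    (Finset.univ.filter (fun q : X × X => E q.1 q.2)).card ≤ 3 * Fintype.card X := by
  have : (Finset.univ.filter (fun q : X × X => E q.1 q.2)) ⊆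
      (Finset.univ : Finset X).biUnion (fun a => (Finset.univ.filter (fun b => E a b)).image
        (fun b => (a, b))) := by
    intro q hq
    rw [Finset.mem_filter] at hq
    rw [Finset.mem_biUnion]
    refine ⟨q.1, Finset.mem_univ _, ?_⟩
    rw [Finset.mem_image]
    exact ⟨q.2, by rw [Finset.mem_filter]; exact ⟨Finset.mem_univ _, hq.2⟩, rfl⟩
  calc _ ≤ _ := Finset.card_le_card this
    _ ≤ (Finset.univ : Finset X).card * 3 := by
        apply Finset.card_biUnion_le_card_mul
        intro a _
        exact Finset.card_image_le.trans (hE a)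
    _ = _ := by rw [Finset.card_univ, mul_comm]

theorem sum_Com_le (hE : ∀ a, (Finset.univ.filter (fun b => E a b)).card ≤ 3)
    (hE' : ∀ a, (Finset.univ.filter (fun b => E' a b)).card ≤ 3)
    (hirr : ∀ a, ¬ E' a a) (hn : 2 ≤ Fintype.card X) :
    ∑ x : Equiv.Perm X, (Com E E' x).card ≤ 18 * (Fintype.card X)! := by
  set n := Fintype.card X with hnd
  have h1 : ∑ x : Equiv.Perm X, (Com E E' x).card =
      ∑ q ∈ Finset.univ.filter (fun q : X × X => E' q.1 q.2),
        (Finset.univ.filter (fun x : Equiv.Perm X => E (x q.1) (x q.2))).card := by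
    have : ∀ x : Equiv.Perm X, (Com E E' x).card =
        ∑ q ∈ Finset.univ.filter (fun q : X × X => E' q.1 q.2),
          if E (x q.1) (x q.2) then 1 else 0 := by
      intro x
      rw [← Finset.card_filter]
      congr 1
      ext q
      simp [Com]
    rw [Finset.sum_congr rfl (fun x _ => this x), Finset.sum_comm]
    apply Finset.sum_congr rfl
    intro q _
    rw [← Finset.card_filter]
  rw [h1]
  have h2 : ∀ q ∈ Finset.univ.filter (fun q : X × X => E' q.1 q.2),
      (Finset.univ.filter (fun x : Equiv.Perm X => E (x q.1) (x q.2))).card ≤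
        (3 * n) * (n - 2)! := by
    intro q hq
    rw [Finset.mem_filter] at hq
    have hne : q.1 ≠ q.2 := by
      intro h
      apply hirr q.1
      have := hq.2
      rw [← h] at this
      exact this
    have hcov : (Finset.univ.filter (fun x : Equiv.Perm X => E (x q.1) (x q.2))) ⊆
        (Finset.univ.filter (fun p : X × X => E p.1 p.2)).biUnion
          (fun p => Finset.univ.filter (fun x : Equiv.Perm X => x q.1 = p.1 ∧ x q.2 = p.2)) := by
      intro x hx
      rw [Finset.mem_filter] at hx
      rw [Finset.mem_biUnion]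
      refine ⟨(x q.1, x q.2), ?_, ?_⟩
      · rw [Finset.mem_filter]
        exact ⟨Finset.mem_univ _, hx.2⟩
      · rw [Finset.mem_filter]
        exact ⟨Finset.mem_univ _, rfl, rfl⟩
    calc _ ≤ _ := Finset.card_le_card hcov
      _ ≤ (Finset.univ.filter (fun p : X × X => E p.1 p.2)).card * (n - 2)! := by
          apply Finset.card_biUnion_le_card_mul
          intro p _
          exact card_two_values_le _ _ _ _ hne
      _ ≤ _ := Nat.mul_le_mul_right _ (card_edges_le hE)
  calc _ ≤ ∑ q ∈ Finset.univ.filter (fun q : X × X => E' q.1 q.2), (3 * n) * (n - 2)! :=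
        Finset.sum_le_sum h2
    _ = (Finset.univ.filter (fun q : X × X => E' q.1 q.2)).card * ((3 * n) * (n - 2)!) := by
        rw [Finset.sum_const, smul_eq_mul]
    _ ≤ (3 * n) * ((3 * n) * (n - 2)!) := Nat.mul_le_mul_right _ (card_edges_le hE')
    _ ≤ 18 * n ! := by
        obtain ⟨k, hk⟩ : ∃ k, n = k + 2 := ⟨n - 2, by omega⟩
        rw [hk]
        simp only [Nat.add_sub_cancel]
        rw [Nat.factorial_succ (k + 1), Nat.factorial_succ k]
        have : 3 * (k + 2) * (3 * (k + 2) * k !) = (9 * (k + 2) * (k + 2)) * k ! := by ring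
        rw [this]
        have h3 : 18 * ((k + 1 + 1) * ((k + 1) * k !)) = (18 * (k + 2) * (k + 1)) * k ! := by ring
        rw [h3]
        apply Nat.mul_le_mul_right
        nlinarith

/-- Good switching partners. -/
noncomputable def UU (E E' : X → X → Prop) (x : Equiv.Perm X) (a : X) : Finset X :=
  Finset.univ.filter (fun u => u ≠ a ∧ ¬ E' a u ∧ (∀ w, E' a w → ¬ E (x u) (x w)) ∧
    (∀ w, E' u w → ¬ E (x a) (x w)))

theorem card_UU (hE : ∀ a, (Finset.univ.filter (fun b => E a b)).card ≤ 3)
    (hE' : ∀ a, (Finset.univ.filter (fun b => E' a b)).card ≤ 3)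
    (hs : ∀ a b, E a b → E b a) (hs' : ∀ a b, E' a b → E' b a) (x : Equiv.Perm X) (a : X) :
    Fintype.card X ≤ (UU E E' x a).card + 22 := by
  set N' := Finset.univ.filter (fun b => E' a b) with hN'
  have hcompl : (UU E E' x a)ᶜ ⊆ (({a} ∪ N') ∪
      N'.biUnion (fun w => (Finset.univ.filter (fun b => E (x w) b)).image x.symm)) ∪
      (Finset.univ.filter (fun v => E (x a) v)).biUnion
        (fun v => Finset.univ.filter (fun u => E' (x.symm v) u)) := by
    intro u hu
    rw [Finset.mem_compl, UU, Finset.mem_filter] at hu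
    simp only [Finset.mem_univ, true_and] at hu
    by_contra hcon
    simp only [Finset.mem_union, Finset.mem_singleton, Finset.mem_biUnion, Finset.mem_image,
      Finset.mem_filter, Finset.mem_univ, true_and, hN', not_or, not_exists, not_and] at hcon
    obtain ⟨⟨⟨h1, h2⟩, h3⟩, h4⟩ := hcon
    apply hu
    refine ⟨h1, h2, ?_, ?_⟩
    · intro w hw hE1
      exact h3 w hw (x u) (hs _ _ hE1) (by simp)
    · intro w hw hE1
      have := h4 (x w) hE1
      apply this
      rw [Equiv.symm_apply_apply]
      exact hs' _ _ hw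
  have hc := Finset.card_le_card hcompl
  have hb1 : (N'.biUnion (fun w => (Finset.univ.filter (fun b => E (x w) b)).image x.symm)).card
      ≤ N'.card * 3 := by
    apply Finset.card_biUnion_le_card_mul
    intro w _
    exact Finset.card_image_le.trans (hE _)
  have hb2 : ((Finset.univ.filter (fun v => E (x a) v)).biUnion
        (fun v => Finset.univ.filter (fun u => E' (x.symm v) u))).card
      ≤ (Finset.univ.filter (fun v => E (x a) v)).card * 3 := by
    apply Finset.card_biUnion_le_card_mul
    intro w _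
    exact hE' _
  have hN3 : N'.card ≤ 3 := hE' a
  have hE3 := hE (x a)
  have hu1 := Finset.card_union_le (({a} ∪ N') ∪
      N'.biUnion (fun w => (Finset.univ.filter (fun b => E (x w) b)).image x.symm))
      ((Finset.univ.filter (fun v => E (x a) v)).biUnion
        (fun v => Finset.univ.filter (fun u => E' (x.symm v) u)))
  have hu2 := Finset.card_union_le ({a} ∪ N')
      (N'.biUnion (fun w => (Finset.univ.filter (fun b => E (x w) b)).image x.symm))
  have hu3 := Finset.card_union_le ({a} : Finset X) N'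
  rw [Finset.card_singleton] at hu3
  rw [Finset.card_compl] at hc
  omega

theorem Com_switch (hs : ∀ a b, E a b → E b a) (hs' : ∀ a b, E' a b → E' b a)
    (hirr' : ∀ a, ¬ E' a a)
    (x : Equiv.Perm X) (a u : X) (hu : u ∈ UU E E' x a) :
    Com E E' (x * Equiv.swap a u) ⊆ (Com E E' x).filter (fun q => q.1 ≠ a) := by
  rw [UU, Finset.mem_filter] at hu
  obtain ⟨-, hua, hau, h1, h2⟩ := hu
  intro q hq
  rw [mem_Com] at hq
  obtain ⟨hq1, hq2⟩ := hq
  simp only [Equiv.Perm.mul_apply] at hq2
  have hqne : q.1 ≠ q.2 := by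
    intro h
    rw [← h] at hq1
    exact hirr' _ hq1
  have e1 : q.1 ≠ a := by
    intro h
    rw [h] at hq1 hq2 hqne
    have hq2u : q.2 ≠ u := by
      intro h'
      rw [h'] at hq1
      exact hau hq1
    rw [Equiv.swap_apply_left, Equiv.swap_apply_of_ne_of_ne hqne.symm hq2u] at hq2
    exact h1 _ hq1 hq2
  have e2 : q.1 ≠ u := by
    intro h
    rw [h] at hq1 hq2 hqne
    have hq2a : q.2 ≠ a := by
      intro h'
      rw [h'] at hq1
      exact hau (hs' _ _ hq1)
    rw [Equiv.swap_apply_right, Equiv.swap_apply_of_ne_of_ne hq2a hqne.symm] at hq2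
    exact h2 _ hq1 hq2
  have e3 : q.2 ≠ a := by
    intro h
    rw [h] at hq1 hq2
    rw [Equiv.swap_apply_left, Equiv.swap_apply_of_ne_of_ne e1 e2] at hq2
    exact h1 _ (hs' _ _ hq1) (hs _ _ hq2)
  have e4 : q.2 ≠ u := by
    intro h
    rw [h] at hq1 hq2
    rw [Equiv.swap_apply_right, Equiv.swap_apply_of_ne_of_ne e1 e2] at hq2
    exact h2 _ (hs' _ _ hq1) (hs _ _ hq2)
  rw [Equiv.swap_apply_of_ne_of_ne e1 e2, Equiv.swap_apply_of_ne_of_ne e3 e4] at hq2
  rw [Finset.mem_filter, mem_Com]
  exact ⟨⟨hq1, hq2⟩, e1⟩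

/-- Permutations with at most `j` common pairs. -/
noncomputable def LL (E E' : X → X → Prop) (j : ℕ) : Finset (Equiv.Perm X) :=
  Finset.univ.filter (fun x => (Com E E' x).card ≤ j)

theorem card_LL_succ (hE : ∀ a, (Finset.univ.filter (fun b => E a b)).card ≤ 3)
    (hE' : ∀ a, (Finset.univ.filter (fun b => E' a b)).card ≤ 3)
    (hs : ∀ a b, E a b → E b a) (hs' : ∀ a b, E' a b → E' b a) (hirr' : ∀ a, ¬ E' a a)
    (hn : 44 ≤ Fintype.card X) (j : ℕ) :
    (LL E E' (j + 1)).card ≤ 19 * (LL E E' j).card := by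
  set n := Fintype.card X with hnd
  -- new permutations
  set Q : Finset (Equiv.Perm X) := Finset.univ.filter (fun x => (Com E E' x).card = j + 1) with hQ
  have hsplit : LL E E' (j + 1) = LL E E' j ∪ Q := by
    ext x
    simp only [LL, hQ, Finset.mem_union, Finset.mem_filter, Finset.mem_univ, true_and]
    omega
  have hQne : ∀ x ∈ Q, ∃ a b, E' a b ∧ E (x a) (x b) := by
    intro x hx
    rw [hQ, Finset.mem_filter] at hx
    have : 0 < (Com E E' x).card := by omega
    obtain ⟨q, hq⟩ := Finset.card_pos.mp this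
    rw [mem_Com] at hq
    exact ⟨q.1, q.2, hq⟩
  let sel : Equiv.Perm X → X := fun x => if h : x ∈ Q then (hQne x h).choose else
    (Classical.choice (by
      have : 0 < Fintype.card X := by omega
      exact Fintype.card_pos_iff.mp this))
  have hsel : ∀ x ∈ Q, ∃ b, E' (sel x) b ∧ E (x (sel x)) (x b) := by
    intro x hx
    simp only [sel, dif_pos hx]
    exact (hQne x hx).choose_spec
  let P : Finset (Σ _ : Equiv.Perm X, X) := Q.sigma (fun x => UU E E' x (sel x))
  let R : Finset (Σ _ : Equiv.Perm X, X × X) := (LL E E' j).sigma (fun y =>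
    (Finset.univ : Finset X).biUnion (fun a =>
      (Finset.univ.filter (fun b => E' a b)).biUnion (fun b =>
        ((Finset.univ.filter (fun v => E (y b) v)).image y.symm).image (fun u => (a, u)))))
  have hPcard : Q.card * (n - 22) ≤ P.card := by
    rw [Finset.card_sigma, ← smul_eq_mul, ← Finset.sum_const]
    apply Finset.sum_le_sum
    intro x _
    have := card_UU hE hE' hs hs' x (sel x)
    omega
  have hRcard : R.card ≤ (LL E E' j).card * (9 * n) := by
    rw [Finset.card_sigma, ← smul_eq_mul, ← Finset.sum_const]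
    apply Finset.sum_le_sum
    intro y _
    calc _ ≤ (Finset.univ : Finset X).card * 9 := by
          apply Finset.card_biUnion_le_card_mul
          intro a _
          calc _ ≤ (Finset.univ.filter (fun b => E' a b)).card * 3 := by
                apply Finset.card_biUnion_le_card_mul
                intro b _
                exact Finset.card_image_le.trans (Finset.card_image_le.trans (hE _))
            _ ≤ 3 * 3 := Nat.mul_le_mul_right _ (hE' a)
            _ = 9 := by norm_num
      _ = 9 * n := by rw [Finset.card_univ, mul_comm]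
  have hPR : P.card ≤ R.card := by
    apply Finset.card_le_card_of_injOn
      (fun q => (⟨q.1 * Equiv.swap (sel q.1) q.2, (sel q.1, q.2)⟩ : Σ _ : Equiv.Perm X, X × X))
    · intro q hq
      have hq' : q ∈ P := hq
      rw [Finset.mem_sigma] at hq'
      obtain ⟨hqQ, hqU⟩ := hq'
      obtain ⟨b, hb1, hb2⟩ := hsel q.1 hqQ
      have hsw := Com_switch hs hs' hirr' q.1 (sel q.1) q.2 hqU
      have hqU' := hqU
      rw [UU, Finset.mem_filter] at hqU'
      obtain ⟨-, hua, hau, h1, h2⟩ := hqU'
      have hbne : b ≠ sel q.1 := by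
        rintro rfl
        exact hirr' _ hb1
      have hbu : b ≠ q.2 := by
        rintro rfl
        exact hau hb1
      change _ ∈ R
      rw [Finset.mem_sigma]
      constructor
      · rw [LL, Finset.mem_filter]
        refine ⟨Finset.mem_univ _, ?_⟩
        have hlt : ((Com E E' q.1).filter (fun p => p.1 ≠ sel q.1)).card < (Com E E' q.1).card := by
          apply Finset.card_lt_card
          rw [Finset.filter_ssubset]
          refine ⟨(sel q.1, b), ?_, ?_⟩
          · rw [mem_Com]
            exact ⟨hb1, hb2⟩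
          · simp
        have hle := Finset.card_le_card hsw
        rw [hQ, Finset.mem_filter] at hqQ
        simp only
        omega
      · simp only [Finset.mem_biUnion, Finset.mem_univ, true_and, Finset.mem_filter,
          Finset.mem_image]
        refine ⟨sel q.1, b, hb1, q.2, ⟨q.1 (sel q.1), ?_, ?_⟩, rfl⟩
        · rw [Equiv.Perm.mul_apply, Equiv.swap_apply_of_ne_of_ne hbne hbu]
          exact hs _ _ hb2
        · rw [Equiv.symm_apply_eq, Equiv.Perm.mul_apply, Equiv.swap_apply_right]
    · intro q _ q' _ hqq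
      have h1 := congrArg Sigma.fst hqq
      have h2 : (sel q.1, q.2) = (sel q'.1, q'.2) := by
        have := (Sigma.mk.inj_iff.mp hqq).2
        exact eq_of_heq this
      rw [Prod.mk.injEq] at h2
      simp only at h1
      rw [h2.1, h2.2] at h1
      have h3 := mul_right_cancel h1
      exact Sigma.ext h3 (heq_of_eq h2.2)
  have hQle : Q.card ≤ 18 * (LL E E' j).card := by
    have h1 : Q.card * (n - 22) ≤ (LL E E' j).card * (9 * n) := (hPcard.trans hPR).trans hRcard
    have h2 : n ≤ 2 * (n - 22) := by omega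
    have h3 : Q.card * (n - 22) ≤ (18 * (LL E E' j).card) * (n - 22) := by
      calc Q.card * (n - 22) ≤ (LL E E' j).card * (9 * n) := h1
        _ ≤ (LL E E' j).card * (9 * (2 * (n - 22))) := by
            apply Nat.mul_le_mul_left
            apply Nat.mul_le_mul_left
            exact h2
        _ = _ := by ring
    exact Nat.le_of_mul_le_mul_right h3 (by omega)
  calc (LL E E' (j + 1)).card ≤ (LL E E' j).card + Q.card := by
        rw [hsplit]
        exact Finset.card_union_le _ _
    _ ≤ (LL E E' j).card + 18 * (LL E E' j).card := Nat.add_le_add_left hQle _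
    _ = _ := by ring

/-- A positive proportion of even permutations have no common pair. -/
theorem card_good_ge (hE : ∀ a, (Finset.univ.filter (fun b => E a b)).card ≤ 3)
    (hE' : ∀ a, (Finset.univ.filter (fun b => E' a b)).card ≤ 3)
    (hs : ∀ a b, E a b → E b a) (hs' : ∀ a b, E' a b → E' b a) (hirr' : ∀ a, ¬ E' a a)
    (hn : 44 ≤ Fintype.card X) :
    (Fintype.card X)! ≤ (6 * 19 ^ 35) * (Finset.univ.filter (fun x : Equiv.Perm X =>
      Equiv.Perm.sign x = 1 ∧ ∀ a b, E' a b → ¬ E (x a) (x b))).card := by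
  set n := Fintype.card X with hnd
  have h1 : ∀ j, (LL E E' j).card ≤ 19 ^ j * (LL E E' 0).card := by
    intro j
    induction j with
    | zero => simp
    | succ j ih =>
      calc (LL E E' (j + 1)).card ≤ 19 * (LL E E' j).card :=
            card_LL_succ hE hE' hs hs' hirr' hn j
        _ ≤ 19 * (19 ^ j * (LL E E' 0).card) := Nat.mul_le_mul_left _ ih
        _ = _ := by ring
  -- Markov
  have h2 : n ! ≤ 2 * (LL E E' 35).card := by
    have hsum := sum_Com_le hE hE' hirr' (by omega : 2 ≤ Fintype.card X)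
    rw [← hnd] at hsum
    have htot : (Finset.univ : Finset (Equiv.Perm X)).card = n ! := by
      rw [Finset.card_univ, Fintype.card_perm]
    have hpart : (LL E E' 35).card +
        (Finset.univ.filter (fun x : Equiv.Perm X => ¬ (Com E E' x).card ≤ 35)).card = n ! := by
      rw [← htot]
      exact Finset.card_filter_add_card_filter_not _
    have hm : 36 * (Finset.univ.filter (fun x : Equiv.Perm X => ¬ (Com E E' x).card ≤ 35)).card ≤
        ∑ x : Equiv.Perm X, (Com E E' x).card := by
      calc _ = ∑ x ∈ Finset.univ.filter (fun x : Equiv.Perm X => ¬ (Com E E' x).card ≤ 35), 36 := by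
            rw [Finset.sum_const, smul_eq_mul, mul_comm]
        _ ≤ ∑ x ∈ Finset.univ.filter (fun x : Equiv.Perm X => ¬ (Com E E' x).card ≤ 35),
            (Com E E' x).card := by
            apply Finset.sum_le_sum
            intro x hx
            rw [Finset.mem_filter] at hx
            omega
        _ ≤ _ := by
            apply Finset.sum_le_sum_of_subset
            exact Finset.filter_subset _ _
    omega
  -- parity
  set Ev : Finset (Equiv.Perm X) := Finset.univ.filter (fun x : Equiv.Perm X =>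
      Equiv.Perm.sign x = 1 ∧ ∀ a b, E' a b → ¬ E (x a) (x b)) with hEv
  set Od : Finset (Equiv.Perm X) := Finset.univ.filter (fun x : Equiv.Perm X =>
      Equiv.Perm.sign x = -1 ∧ ∀ a b, E' a b → ¬ E (x a) (x b)) with hOd
  have hL0 : LL E E' 0 ⊆ Ev ∪ Od := by
    intro x hx
    rw [LL, Finset.mem_filter, Nat.le_zero, Finset.card_eq_zero] at hx
    have hno : ∀ a b, E' a b → ¬ E (x a) (x b) := by
      intro a b hab hE1
      have : (a, b) ∈ Com E E' x := by
        rw [mem_Com]
        exact ⟨hab, hE1⟩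
      rw [hx.2] at this
      exact absurd this (Finset.notMem_empty _)
    rw [Finset.mem_union, hEv, hOd, Finset.mem_filter, Finset.mem_filter]
    rcases Int.units_eq_one_or (Equiv.Perm.sign x) with h | h
    · left
      exact ⟨Finset.mem_univ _, h, hno⟩
    · right
      exact ⟨Finset.mem_univ _, h, hno⟩
  obtain ⟨a0⟩ : Nonempty X := Fintype.card_pos_iff.mp (by omega)
  have hOdEv : Od.card * (n - 22) ≤ Ev.card * n := by
    let P : Finset (Σ _ : Equiv.Perm X, X) := Od.sigma (fun x => UU E E' x a0)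
    let R : Finset (Σ _ : Equiv.Perm X, X) := Ev.sigma (fun _ => Finset.univ)
    have hP : Od.card * (n - 22) ≤ P.card := by
      rw [Finset.card_sigma, ← smul_eq_mul, ← Finset.sum_const]
      apply Finset.sum_le_sum
      intro x _
      have := card_UU hE hE' hs hs' x a0
      omega
    have hR : R.card = Ev.card * n := by
      rw [Finset.card_sigma, Finset.sum_const, Finset.card_univ, smul_eq_mul]
    rw [← hR]
    refine hP.trans ?_
    apply Finset.card_le_card_of_injOn
      (fun q => (⟨q.1 * Equiv.swap a0 q.2, q.2⟩ : Σ _ : Equiv.Perm X, X))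
    · intro q hq
      have hq' : q ∈ P := hq
      rw [Finset.mem_sigma] at hq'
      obtain ⟨hqO, hqU⟩ := hq'
      rw [hOd, Finset.mem_filter] at hqO
      have hsw := Com_switch hs hs' hirr' q.1 a0 q.2 hqU
      have hqU' := hqU
      rw [UU, Finset.mem_filter] at hqU'
      change _ ∈ R
      rw [Finset.mem_sigma]
      refine ⟨?_, Finset.mem_univ _⟩
      rw [hEv, Finset.mem_filter]
      refine ⟨Finset.mem_univ _, ?_, ?_⟩
      · simp only
        rw [Equiv.Perm.sign_mul, hqO.2.1, Equiv.Perm.sign_swap hqU'.2.1.symm]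
        norm_num
      · intro a b hab hE1
        have hmem : (a, b) ∈ Com E E' (q.1 * Equiv.swap a0 q.2) := by
          rw [mem_Com]
          exact ⟨hab, hE1⟩
        have := hsw hmem
        rw [Finset.mem_filter, mem_Com] at this
        exact hqO.2.2 a b this.1.1 this.1.2
    · intro q _ q' _ hqq
      have h2 : q.2 = q'.2 := by
        have := (Sigma.mk.inj_iff.mp hqq).2
        exact eq_of_heq this
      have h1 : q.1 * Equiv.swap a0 q.2 = q'.1 * Equiv.swap a0 q'.2 :=
        (Sigma.mk.inj_iff.mp hqq).1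
      rw [h2] at h1
      exact Sigma.ext (mul_right_cancel h1) (heq_of_eq h2)
  have hOd2 : Od.card ≤ 2 * Ev.card := by
    have h3 : Od.card * (n - 22) ≤ (2 * Ev.card) * (n - 22) := by
      calc Od.card * (n - 22) ≤ Ev.card * n := hOdEv
        _ ≤ Ev.card * (2 * (n - 22)) := Nat.mul_le_mul_left _ (by omega)
        _ = _ := by ring
    exact Nat.le_of_mul_le_mul_right h3 (by omega)
  have hL0' : (LL E E' 0).card ≤ 3 * Ev.card := by
    have := (Finset.card_le_card hL0).trans (Finset.card_union_le _ _)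
    omega
  calc n ! ≤ 2 * (LL E E' 35).card := h2
    _ ≤ 2 * (19 ^ 35 * (LL E E' 0).card) := Nat.mul_le_mul_left _ (h1 35)
    _ ≤ 2 * (19 ^ 35 * (3 * Ev.card)) := by
        apply Nat.mul_le_mul_left
        apply Nat.mul_le_mul_left
        exact hL0'
    _ = (6 * 19 ^ 35) * Ev.card := by ring

end

end Pool.Agent.Lib.MP_69a6f7_al
end

section

section

open MulAction
open scoped Classical

namespace Pool.Agent.Lib.MP_69a6f7_al

variable {X : Type*} [Fintype X]

theorem supp_univ (h : Equiv.Perm X) : Supp (Finset.univ : Finset X) h = h.support := by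
  ext x
  rw [Supp, Finset.mem_filter, Equiv.Perm.mem_support]
  simp

/-- The elements of `H` with support exactly `S`. -/
theorem card_support_eq_le (H : Subgroup (Equiv.Perm X)) (hsol : Group.IsSolvable H)
    (S : Finset X) :
    (Finset.univ.filter (fun h : Equiv.Perm X => h ∈ H ∧ h.support = S)).card ≤ 16 ^ S.card := by
  rcases S.eq_empty_or_nonempty with rfl | hne
  · rw [Finset.card_empty, pow_zero, Finset.card_le_one]
    intro a ha b hb
    rw [Finset.mem_filter] at ha hb
    rw [Equiv.Perm.support_eq_empty_iff.mp ha.2.2, Equiv.Perm.support_eq_empty_iff.mp hb.2.2]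
  · set K : Subgroup (Equiv.Perm X) := H ⊓ fixingSubgroup (Equiv.Perm X) ((Sᶜ : Finset X) : Set X)
      with hK
    have hKmem : ∀ k, k ∈ K ↔ k ∈ H ∧ ∀ y ∈ Sᶜ, k y = y := by
      intro k
      rw [hK, Subgroup.mem_inf, mem_fixing]
      rfl
    have hKsol : Group.IsSolvable K :=
      Group.isSolvable_of_isSolvable_injective (f := Subgroup.inclusion (inf_le_left : K ≤ H))
        (Subgroup.inclusion_injective _)
    have hKinv : Inv K S := by
      intro k hk y hy
      by_contra hcon
      have h1 : k (k y) = k y := ((hKmem k).mp hk).2 (k y) (by simpa using hcon)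
      have h2 : k y = y := k.injective h1
      apply hcon
      change k y ∈ S
      rw [h2]
      exact hy
    have hle := relIndex_le K S hKsol hKinv hne
    have hbot : fixingSubgroup (Equiv.Perm X) (S : Set X) ⊓ K = ⊥ := by
      rw [Subgroup.eq_bot_iff_forall]
      intro k hk
      rw [Subgroup.mem_inf, mem_fixing, hKmem] at hk
      ext y
      by_cases hy : y ∈ S
      · exact hk.1 y hy
      · exact hk.2.2 y (by simpa using hy)
    rw [← Subgroup.inf_relIndex_right, hbot, Subgroup.relIndex_bot_left] at hle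
    calc (Finset.univ.filter (fun h : Equiv.Perm X => h ∈ H ∧ h.support = S)).card
        ≤ (Finset.univ.filter (fun h : Equiv.Perm X => h ∈ K)).card := by
          apply Finset.card_le_card
          intro h hh
          rw [Finset.mem_filter] at hh ⊢
          refine ⟨Finset.mem_univ _, (hKmem h).mpr ⟨hh.2.1, ?_⟩⟩
          intro y hy
          rw [Finset.mem_compl, ← hh.2.2, Equiv.Perm.notMem_support] at hy
          exact hy
      _ = Nat.card K := by
          rw [Nat.card_eq_fintype_card, Fintype.card_subtype]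
      _ ≤ 16 ^ (S.card - 1) := hle
      _ ≤ 16 ^ S.card := Nat.pow_le_pow_right (by norm_num) (by omega)

/-- The number of elements of `H` moving exactly `s` points. -/
noncomputable def Ns (H : Subgroup (Equiv.Perm X)) (s : ℕ) : ℕ :=
  (Finset.univ.filter (fun h : Equiv.Perm X => h ∈ H ∧ h.support.card = s)).card

theorem Ns_le (H : Subgroup (Equiv.Perm X)) (hsol : Group.IsSolvable H) (s : ℕ) :
    Ns H s ≤ ((Supps H (Finset.univ : Finset X)).filter (fun S => S.card = s)).card * 16 ^ s := by
  rw [Ns]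
  calc (Finset.univ.filter (fun h : Equiv.Perm X => h ∈ H ∧ h.support.card = s)).card
      ≤ (((Supps H (Finset.univ : Finset X)).filter (fun S => S.card = s)).biUnion
        (fun S => Finset.univ.filter (fun h : Equiv.Perm X => h ∈ H ∧ h.support = S))).card := by
        apply Finset.card_le_card
        intro h hh
        rw [Finset.mem_filter] at hh
        rw [Finset.mem_biUnion]
        refine ⟨h.support, ?_, ?_⟩
        · rw [Finset.mem_filter, mem_Supps]
          exact ⟨⟨h, hh.2.1, supp_univ h⟩, hh.2.2⟩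
        · rw [Finset.mem_filter]
          exact ⟨Finset.mem_univ _, hh.2.1, rfl⟩
    _ ≤ ((Supps H (Finset.univ : Finset X)).filter (fun S => S.card = s)).card * 16 ^ s := by
        apply Finset.card_biUnion_le_card_mul
        intro S hS
        rw [Finset.mem_filter] at hS
        rw [← hS.2]
        exact card_support_eq_le H hsol S

theorem Ns_sq_le (H : Subgroup (Equiv.Perm X)) (hsol : Group.IsSolvable H) (s : ℕ)
    (hs : 1 ≤ s) (hsn : s ≤ Fintype.card X) :
    ((Ns H s : ℝ)) ^ 2 ≤ (2 ^ 17 * (Fintype.card X : ℝ) / s) ^ s := by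
  set n := Fintype.card X with hn
  have hspos : (0 : ℝ) < s := by exact_mod_cast hs
  have hnpos : (0 : ℝ) < n := by exact_mod_cast (by omega : 0 < n)
  set t : ℝ := Real.sqrt (s / n) / 16 with ht
  have ht0 : 0 ≤ t := by positivity
  have htsq : t ^ 2 = s / (256 * n) := by
    rw [ht, div_pow, Real.sq_sqrt (by positivity)]
    field_simp
    norm_num
  have ht1 : t ≤ 1 / 16 := by
    rw [ht]
    apply div_le_div_of_nonneg_right _ (by norm_num)
    rw [Real.sqrt_le_one]
    rw [div_le_one hnpos]
    exact_mod_cast hsn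
  have hne : (Finset.univ : Finset X).Nonempty := by
    rw [← Finset.card_pos, Finset.card_univ]
    omega
  have hinv : Inv H (Finset.univ : Finset X) := fun h _ y _ => Finset.mem_univ (h • y)
  have hZ := zf_le ht0 ht1 H (Finset.univ : Finset X) hsol hinv hne
  set A := ((Supps H (Finset.univ : Finset X)).filter (fun S => S.card = s)).card with hA
  have hAZ : (A : ℝ) * t ^ s ≤ Zf t H (Finset.univ : Finset X) := by
    rw [Zf]
    calc (A : ℝ) * t ^ s = ∑ S ∈ (Supps H (Finset.univ : Finset X)).filter (fun S => S.card = s),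
          t ^ S.card := by
          rw [hA, ← nsmul_eq_mul, ← Finset.sum_const]
          apply Finset.sum_congr rfl
          intro S hS
          rw [Finset.mem_filter] at hS
          rw [hS.2]
      _ ≤ _ := by
          apply Finset.sum_le_sum_of_subset_of_nonneg (Finset.filter_subset _ _)
          intro S _ _
          positivity
  have hexp : Real.exp (16 * t ^ 2 * (((Finset.univ : Finset X).card : ℝ) - 1)) ≤
      Real.exp (s / 16) := by
    apply Real.exp_le_exp.mpr
    rw [Finset.card_univ, ← hn, htsq]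
    have : 16 * ((s : ℝ) / (256 * n)) * ((n : ℝ) - 1) ≤ 16 * ((s : ℝ) / (256 * n)) * n := by
      apply mul_le_mul_of_nonneg_left _ (by positivity)
      linarith
    refine this.trans (le_of_eq ?_)
    field_simp
    norm_num
  have h1 : (A : ℝ) * t ^ s ≤ Real.exp (s / 16) := (hAZ.trans hZ).trans hexp
  have h2 : ((A : ℝ) * t ^ s) ^ 2 ≤ 2 ^ s := by
    calc ((A : ℝ) * t ^ s) ^ 2 ≤ (Real.exp (s / 16)) ^ 2 := by
          apply pow_le_pow_left₀ (by positivity) h1
      _ = (Real.exp (1 / 8)) ^ s := by
          rw [← Real.exp_nat_mul, ← Real.exp_nat_mul]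
          congr 1
          push_cast
          ring
      _ ≤ 2 ^ s := by
          apply pow_le_pow_left₀ (Real.exp_pos _).le
          have := Real.exp_one_lt_d9
          calc Real.exp (1 / 8) ≤ 1 / (1 - 1 / 8) := by
                have h := Real.add_one_le_exp (-(1 / 8 : ℝ))
                rw [Real.exp_neg] at h
                rw [le_div_iff₀ (by norm_num)]
                have hp := Real.exp_pos (1 / 8)
                have h3 : (-(1 / 8) + 1) * Real.exp (1 / 8) ≤ 1 := by
                  calc (-(1 / 8) + 1) * Real.exp (1 / 8)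
                      ≤ (Real.exp (1 / 8))⁻¹ * Real.exp (1 / 8) :=
                        mul_le_mul_of_nonneg_right h hp.le
                    _ = 1 := inv_mul_cancel₀ hp.ne'
                linarith
            _ ≤ 2 := by norm_num
  have h3 : (A : ℝ) ^ 2 * (s / (256 * n)) ^ s ≤ 2 ^ s := by
    rw [← htsq]
    calc (A : ℝ) ^ 2 * (t ^ 2) ^ s = ((A : ℝ) * t ^ s) ^ 2 := by
          rw [mul_pow, ← pow_mul, ← pow_mul, mul_comm 2 s]
      _ ≤ 2 ^ s := h2
  have h4 : (A : ℝ) ^ 2 ≤ (512 * n / s) ^ s := by
    have hq : (0 : ℝ) < (s / (256 * n)) ^ s := by positivity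
    rw [← le_div_iff₀ hq, ← div_pow] at h3
    refine h3.trans (le_of_eq ?_)
    congr 1
    field_simp
    norm_num
  have h5 : (Ns H s : ℝ) ≤ A * 16 ^ s := by exact_mod_cast Ns_le H hsol s
  calc ((Ns H s : ℝ)) ^ 2 ≤ (A * 16 ^ s) ^ 2 := pow_le_pow_left₀ (by positivity) h5 2
    _ = A ^ 2 * 256 ^ s := by
        rw [mul_pow, ← pow_mul, mul_comm s 2, pow_mul]
        norm_num
    _ ≤ (512 * n / s) ^ s * 256 ^ s := mul_le_mul_of_nonneg_right h4 (by positivity)
    _ = (2 ^ 17 * n / s) ^ s := by
        rw [← mul_pow]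
        congr 1
        ring

end Pool.Agent.Lib.MP_69a6f7_al
end

section

open MulAction
open scoped Classical Nat

namespace Pool.Agent.Lib.MP_69a6f7_al

theorem multiset_bound (m : Multiset ℕ) (s : ℕ) (hs : m.sum = s) :
    m.prod * ∏ n ∈ m.toFinset, (m.count n)! ≤ s ^ (Multiset.card m) := by
  rw [Finset.prod_multiset_count, ← Finset.prod_mul_distrib]
  have hle : ∀ n ∈ m.toFinset, n * m.count n ≤ s := by
    intro n hn
    rw [← hs, Finset.sum_multiset_count]
    have := Finset.single_le_sum (f := fun k => m.count k • k) (fun i _ => Nat.zero_le _) hn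
    simp only [smul_eq_mul] at this ⊢
    calc n * m.count n = m.count n * n := mul_comm _ _
      _ ≤ _ := this
  calc ∏ n ∈ m.toFinset, (n ^ m.count n * (m.count n)!)
      ≤ ∏ n ∈ m.toFinset, s ^ m.count n := by
        apply Finset.prod_le_prod
        · intro i _
          exact Nat.zero_le _
        · intro n hn
          calc n ^ m.count n * (m.count n)! ≤ n ^ m.count n * (m.count n) ^ (m.count n) :=
                Nat.mul_le_mul_left _ (Nat.factorial_le_pow _)
            _ = (n * m.count n) ^ (m.count n) := by rw [mul_pow]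
            _ ≤ s ^ m.count n := Nat.pow_le_pow_left (hle n hn) _
    _ = s ^ (Multiset.card m) := by
        rw [Finset.prod_pow_eq_pow_sum, Multiset.toFinset_sum_count_eq]

variable {X : Type*} [Fintype X]

theorem card_centralizer_le (g : Equiv.Perm X) :
    (Nat.card (Subgroup.centralizer {g})) ^ 2 ≤
      ((Fintype.card X - g.support.card)!) ^ 2 * g.support.card ^ g.support.card := by
  rw [Equiv.Perm.nat_card_centralizer, mul_assoc, mul_pow, Equiv.Perm.sum_cycleType]
  apply Nat.mul_le_mul_left
  have h1 := multiset_bound g.cycleType g.support.card (Equiv.Perm.sum_cycleType g)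
  have h2 : Multiset.card g.cycleType * 2 ≤ g.support.card := by
    rw [← Equiv.Perm.sum_cycleType, ← smul_eq_mul]
    apply Multiset.card_nsmul_le_sum
    intro x hx
    exact Equiv.Perm.two_le_of_mem_cycleType hx
  rcases Nat.eq_zero_or_pos g.support.card with h0 | hpos
  · have hc : Multiset.card g.cycleType = 0 := by omega
    rw [h0] at h1 ⊢
    rw [hc, pow_zero] at h1
    calc _ ≤ 1 ^ 2 := Nat.pow_le_pow_left h1 2
      _ = 0 ^ 0 := by norm_num
  · calc _ ≤ (g.support.card ^ Multiset.card g.cycleType) ^ 2 := Nat.pow_le_pow_left h1 2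
      _ = g.support.card ^ (Multiset.card g.cycleType * 2) := by rw [← pow_mul]
      _ ≤ _ := Nat.pow_le_pow_right hpos h2

theorem card_conj_le (z k : Equiv.Perm X) :
    (Finset.univ.filter (fun x : Equiv.Perm X => x⁻¹ * z * x = k)).card ≤
      Nat.card (Subgroup.centralizer {z}) := by
  rcases (Finset.univ.filter (fun x : Equiv.Perm X => x⁻¹ * z * x = k)).eq_empty_or_nonempty
    with h | ⟨x0, hx0⟩
  · rw [h, Finset.card_empty]
    exact Nat.zero_le _
  · rw [Finset.mem_filter] at hx0
    rw [Nat.card_eq_fintype_card, Fintype.card_subtype]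
    apply Finset.card_le_card_of_injOn (fun x => x * x0⁻¹)
    · intro x hx
      rw [Finset.coe_filter, Set.mem_ofPred_eq] at hx ⊢
      refine ⟨Finset.mem_univ _, ?_⟩
      rw [Subgroup.mem_centralizer_singleton_iff]
      have h1 : z * x = x * k := by rw [← hx.2]; group
      have h2 : z * x0 = x0 * k := by rw [← hx0.2]; group
      have h3 : x0⁻¹ * z = k * x0⁻¹ := by
        rw [inv_mul_eq_iff_eq_mul, ← mul_assoc, ← h2]
        group
      rw [mul_assoc, h3, ← mul_assoc, ← mul_assoc, ← h1]
    · intro x _ y _ hxy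
      exact mul_right_cancel hxy

/-- The permutations `x` such that some element of `H ∩ x K x⁻¹` moves exactly `s` points. -/
noncomputable def BadS (H K : Subgroup (Equiv.Perm X)) (s : ℕ) : Finset (Equiv.Perm X) :=
  Finset.univ.filter (fun x => ∃ z ∈ H, x⁻¹ * z * x ∈ K ∧ z.support.card = s)

theorem support_conj_card (x z : Equiv.Perm X) :
    (x⁻¹ * z * x).support.card = z.support.card := by
  have := Equiv.Perm.card_support_conj (σ := x⁻¹) (τ := z)
  rw [inv_inv] at this
  exact this

theorem card_BadS_sq_le_nat (H K : Subgroup (Equiv.Perm X)) (s : ℕ) :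
    (BadS H K s).card ^ 2 ≤
      (Ns H s * Ns K s) ^ 2 * (((Fintype.card X - s)!) ^ 2 * s ^ s) := by
  set HS := (Finset.univ.filter (fun h : Equiv.Perm X => h ∈ H ∧ h.support.card = s)) with hHS
  set KS := (Finset.univ.filter (fun h : Equiv.Perm X => h ∈ K ∧ h.support.card = s)) with hKS
  set C := Nat.sqrt (((Fintype.card X - s)!) ^ 2 * s ^ s) with hC
  have hle : (BadS H K s).card ≤ (Ns H s * Ns K s) * C := by
    calc (BadS H K s).card ≤ ((HS ×ˢ KS).biUnion (fun q => Finset.univ.filter
          (fun x : Equiv.Perm X => x⁻¹ * q.1 * x = q.2))).card := by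
          apply Finset.card_le_card
          intro x hx
          rw [BadS, Finset.mem_filter] at hx
          obtain ⟨-, z, hz, hzK, hzs⟩ := hx
          rw [Finset.mem_biUnion]
          refine ⟨(z, x⁻¹ * z * x), ?_, ?_⟩
          · rw [Finset.mem_product, hHS, hKS, Finset.mem_filter, Finset.mem_filter]
            exact ⟨⟨Finset.mem_univ _, hz, hzs⟩, ⟨Finset.mem_univ _, hzK, by
              rw [support_conj_card]; exact hzs⟩⟩
          · rw [Finset.mem_filter]
            exact ⟨Finset.mem_univ _, rfl⟩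
      _ ≤ (HS ×ˢ KS).card * C := by
          apply Finset.card_biUnion_le_card_mul
          intro q hq
          rw [Finset.mem_product, hHS, Finset.mem_filter] at hq
          refine (card_conj_le q.1 q.2).trans ?_
          rw [hC, Nat.le_sqrt, ← sq]
          have := card_centralizer_le q.1
          rw [hq.1.2.2] at this
          exact this
      _ = (Ns H s * Ns K s) * C := by
          rw [Finset.card_product]
          rfl
  calc (BadS H K s).card ^ 2 ≤ ((Ns H s * Ns K s) * C) ^ 2 := Nat.pow_le_pow_left hle 2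
    _ = (Ns H s * Ns K s) ^ 2 * C ^ 2 := by rw [mul_pow]
    _ ≤ _ := Nat.mul_le_mul_left _ (Nat.sqrt_le' _)

theorem pow_le_factorial (s : ℕ) : s ^ s ≤ 4 ^ s * s ! := by
  have h := Real.pow_div_factorial_le_exp (s : ℝ) (by positivity) s
  rw [div_le_iff₀ (by positivity)] at h
  have h2 : Real.exp (s : ℝ) ≤ 4 ^ s := by
    have : Real.exp (s : ℝ) = (Real.exp 1) ^ s := by
      rw [← Real.exp_nat_mul, mul_one]
    rw [this]
    apply pow_le_pow_left₀ (Real.exp_pos _).le
    have := Real.exp_one_lt_d9
    linarith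
  have h3 : (s : ℝ) ^ s ≤ 4 ^ s * (s ! : ℝ) :=
    h.trans (mul_le_mul_of_nonneg_right h2 (by positivity))
  exact_mod_cast h3

theorem pow_le_descFactorial (n s : ℕ) (hsn : s ≤ n) : n ^ s ≤ 4 ^ s * n.descFactorial s := by
  have h1 : n ^ s * s ! ≤ n.descFactorial s * s ^ s := by
    have e1 : s ! = ∏ i ∈ Finset.range s, (s - i) := by
      rw [← Nat.descFactorial_self, Nat.descFactorial_eq_prod_range]
    rw [e1, Nat.descFactorial_eq_prod_range]
    have e2 : n ^ s = ∏ i ∈ Finset.range s, n := by simp
    have e3 : s ^ s = ∏ i ∈ Finset.range s, s := by simp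
    rw [e2, e3, ← Finset.prod_mul_distrib, ← Finset.prod_mul_distrib]
    apply Finset.prod_le_prod
    · intro i _
      exact Nat.zero_le _
    · intro i hi
      rw [Finset.mem_range] at hi
      rw [Nat.mul_sub, Nat.sub_mul]
      apply Nat.sub_le_sub_left
      rw [mul_comm]
      exact Nat.mul_le_mul_right _ hsn
  have h2 := pow_le_factorial s
  have hpos : 0 < s ! := Nat.factorial_pos s
  apply Nat.le_of_mul_le_mul_right _ hpos
  calc n ^ s * s ! ≤ n.descFactorial s * s ^ s := h1
    _ ≤ n.descFactorial s * (4 ^ s * s !) := Nat.mul_le_mul_left _ h2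
    _ = 4 ^ s * n.descFactorial s * s ! := by ring

theorem factorial_sub_bound (n s : ℕ) (hsn : s ≤ n) : (n - s)! * n ^ s ≤ 4 ^ s * n ! := by
  calc (n - s)! * n ^ s ≤ (n - s)! * (4 ^ s * n.descFactorial s) :=
        Nat.mul_le_mul_left _ (pow_le_descFactorial n s hsn)
    _ = 4 ^ s * ((n - s)! * n.descFactorial s) := by ring
    _ = 4 ^ s * n ! := by rw [Nat.factorial_mul_descFactorial hsn]

/-- Large supports are rare. -/
theorem card_BadS_le (H K : Subgroup (Equiv.Perm X)) (hH : Group.IsSolvable H)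
    (hK : Group.IsSolvable K) (s : ℕ) (hs : 2 ^ 42 ≤ s) (hsn : s ≤ Fintype.card X) :
    ((BadS H K s).card : ℝ) ≤ (1 / 4) ^ s * ((Fintype.card X)! : ℝ) := by
  set n := Fintype.card X with hn
  have hs1 : 1 ≤ s := le_trans (Nat.one_le_pow _ _ (by norm_num)) hs
  have hspos : (0 : ℝ) < s := by exact_mod_cast hs1
  have hnpos : (0 : ℝ) < n := by exact_mod_cast (by omega : 0 < n)
  have h0 : ((BadS H K s).card : ℝ) ^ 2 ≤
      ((Ns H s : ℝ) ^ 2 * (Ns K s : ℝ) ^ 2) * ((((n - s)! : ℕ) : ℝ) ^ 2 * (s : ℝ) ^ s) := by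
    have := card_BadS_sq_le_nat H K s
    rw [← hn] at this
    rw [← mul_pow]
    exact_mod_cast this
  have h1 := Ns_sq_le H hH s hs1 hsn
  have h2 := Ns_sq_le K hK s hs1 hsn
  rw [← hn] at h1 h2
  have h3 : (((n - s)! : ℕ) : ℝ) ^ 2 ≤ (16 / (n : ℝ) ^ 2) ^ s * ((n ! : ℕ) : ℝ) ^ 2 := by
    have h4 : (((n - s)! : ℕ) : ℝ) * (n : ℝ) ^ s ≤ 4 ^ s * ((n ! : ℕ) : ℝ) := by
      exact_mod_cast factorial_sub_bound n s hsn
    have h5 : ((((n - s)! : ℕ) : ℝ) * (n : ℝ) ^ s) ^ 2 ≤ (4 ^ s * ((n ! : ℕ) : ℝ)) ^ 2 :=
      pow_le_pow_left₀ (by positivity) h4 2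
    rw [div_pow, div_mul_eq_mul_div, le_div_iff₀ (by positivity)]
    calc (((n - s)! : ℕ) : ℝ) ^ 2 * ((n : ℝ) ^ 2) ^ s
        = ((((n - s)! : ℕ) : ℝ) * (n : ℝ) ^ s) ^ 2 := by ring
      _ ≤ (4 ^ s * ((n ! : ℕ) : ℝ)) ^ 2 := h5
      _ = 16 ^ s * ((n ! : ℕ) : ℝ) ^ 2 := by
          rw [mul_pow, ← pow_mul, mul_comm s 2, pow_mul]
          norm_num
  have h6 : ((BadS H K s).card : ℝ) ^ 2 ≤ ((1 / 4) ^ s * ((n ! : ℕ) : ℝ)) ^ 2 := by
    calc ((BadS H K s).card : ℝ) ^ 2
        ≤ ((Ns H s : ℝ) ^ 2 * (Ns K s : ℝ) ^ 2) * ((((n - s)! : ℕ) : ℝ) ^ 2 * (s : ℝ) ^ s) := h0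
      _ ≤ ((2 ^ 17 * (n : ℝ) / s) ^ s * (2 ^ 17 * (n : ℝ) / s) ^ s) *
          (((16 / (n : ℝ) ^ 2) ^ s * ((n ! : ℕ) : ℝ) ^ 2) * (s : ℝ) ^ s) := by
          apply mul_le_mul
          · exact mul_le_mul h1 h2 (by positivity) (by positivity)
          · exact mul_le_mul_of_nonneg_right h3 (by positivity)
          · positivity
          · positivity
      _ = (2 ^ 38 / (s : ℝ)) ^ s * ((n ! : ℕ) : ℝ) ^ 2 := by
          have e : (2 ^ 38 / (s : ℝ)) = (2 ^ 17 * (n : ℝ) / s) * (2 ^ 17 * (n : ℝ) / s) *
              (16 / (n : ℝ) ^ 2) * s := by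
            field_simp
            norm_num
          rw [e, mul_pow, mul_pow, mul_pow]
          ring
      _ ≤ (1 / 16) ^ s * ((n ! : ℕ) : ℝ) ^ 2 := by
          apply mul_le_mul_of_nonneg_right _ (by positivity)
          apply pow_le_pow_left₀ (by positivity)
          rw [div_le_div_iff₀ hspos (by norm_num)]
          have : ((2 : ℝ) ^ 42) ≤ s := by exact_mod_cast hs
          linarith
      _ = ((1 / 4) ^ s * ((n ! : ℕ) : ℝ)) ^ 2 := by
          rw [mul_pow, ← pow_mul, mul_comm s 2, pow_mul]
          norm_num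
  exact (sq_le_sq₀ (by positivity) (by positivity)).mp h6

end Pool.Agent.Lib.MP_69a6f7_al
end

section

open MulAction
open scoped Classical Nat

namespace Pool.Agent.Lib.MP_69a6f7_al

variable {X : Type*} [Fintype X]

/-- The subgroup generated by the elements of `H` moving at most `r` points. -/
def NN (H : Subgroup (Equiv.Perm X)) (r : ℕ) : Subgroup (Equiv.Perm X) :=
  Subgroup.closure {h | h ∈ H ∧ h.support.card ≤ r}

theorem NN_le (H : Subgroup (Equiv.Perm X)) (r : ℕ) : NN H r ≤ H := by
  rw [NN, Subgroup.closure_le]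
  intro h hh
  exact hh.1

theorem mem_NN {H : Subgroup (Equiv.Perm X)} {r : ℕ} {h : Equiv.Perm X} (hh : h ∈ H)
    (hr : h.support.card ≤ r) : h ∈ NN H r :=
  Subgroup.subset_closure ⟨hh, hr⟩

/-- The orbit, as a finset. -/
noncomputable def Orb (N : Subgroup (Equiv.Perm X)) (x : X) : Finset X :=
  Finset.univ.filter (fun y => ∃ g ∈ N, g x = y)

theorem mem_Orb {N : Subgroup (Equiv.Perm X)} {x y : X} : y ∈ Orb N x ↔ ∃ g ∈ N, g x = y := by
  rw [Orb, Finset.mem_filter]
  simp

theorem mem_Orb_self (N : Subgroup (Equiv.Perm X)) (x : X) : x ∈ Orb N x :=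
  mem_Orb.mpr ⟨1, N.one_mem, rfl⟩

theorem Orb_eq {N : Subgroup (Equiv.Perm X)} {x : X} {g : Equiv.Perm X} (hg : g ∈ N) :
    Orb N (g x) = Orb N x := by
  ext y
  rw [mem_Orb, mem_Orb]
  constructor
  · rintro ⟨k, hk, rfl⟩
    exact ⟨k * g, N.mul_mem hk hg, rfl⟩
  · rintro ⟨k, hk, rfl⟩
    refine ⟨k * g⁻¹, N.mul_mem hk (N.inv_mem hg), ?_⟩
    simp

theorem Orb_eq_of_mem {N : Subgroup (Equiv.Perm X)} {x y : X} (h : y ∈ Orb N x) :
    Orb N y = Orb N x := by
  obtain ⟨g, hg, rfl⟩ := mem_Orb.mp h
  exact Orb_eq hg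

theorem fib_card_const {G Y : Type*} [Group G] [MulAction G Y] {H : Subgroup G} {M : Subgroup H}
    (p : Y → H ⧸ M) (S : Finset Y)
    (hinv : Inv H S) (hp : ∀ (h : H), ∀ y ∈ S, p ((h : G) • y) = h • p y) (d : H ⧸ M) :
    (fib p S d).card = (fib p S (QuotientGroup.mk 1)).card := by
  obtain ⟨g, rfl⟩ := QuotientGroup.mk_surjective d
  have : (QuotientGroup.mk g : H ⧸ M) = g • (QuotientGroup.mk 1 : H ⧸ M) := by
    rw [MulAction.Quotient.smul_mk]
    simp
  rw [this, fib_card p S hinv hp]

/-- Orbits of `NN H r` have at most `2 r` points. -/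
theorem Orb_card_le (H : Subgroup (Equiv.Perm X)) (hsol : Group.IsSolvable H) (r : ℕ)
    (hr : 1 ≤ r) (x : X) : (Orb (NN H r) x).card ≤ 2 * r := by
  set N := NN H r with hN
  have hNsol : Group.IsSolvable N :=
    Group.isSolvable_of_isSolvable_injective (f := Subgroup.inclusion (NN_le H r))
      (Subgroup.inclusion_injective _)
  set Y := Orb N x with hY
  by_cases hc : 1 < Y.card
  swap
  · omega
  have hinv : Inv N Y := by
    intro h hh y hy
    obtain ⟨g, hg, rfl⟩ := mem_Orb.mp hy
    exact mem_Orb.mpr ⟨h * g, N.mul_mem hh hg, rfl⟩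
  have htr : ∀ y ∈ Y, ∃ h ∈ N, h • x = y := by
    intro y hy
    exact mem_Orb.mp hy
  obtain ⟨M, p, hprim, hnt, hp, hsurj⟩ := exists_primitive_quotient N Y x htr hc
  have : Fintype (N ⧸ M) := Fintype.ofFinite _
  have hxY : x ∈ Y := mem_Orb_self N x
  -- some generator acts nontrivially
  have hgen : ∃ h : N, (h : Equiv.Perm X).support.card ≤ r ∧ ∃ d : N ⧸ M, h • d ≠ d := by
    by_contra hcon
    push Not at hcon
    have hall : ∀ g (hg : g ∈ N), ∀ d : N ⧸ M, (⟨g, hg⟩ : N) • d = d := by
      intro g hg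
      refine Subgroup.closure_induction
        (p := fun g hg => ∀ d : N ⧸ M, (⟨g, hg⟩ : N) • d = d) ?_ ?_ ?_ ?_ hg
      · intro y hy d
        exact hcon ⟨y, Subgroup.subset_closure hy⟩ hy.2 d
      · intro d
        exact one_smul _ d
      · intro a b ha hb iha ihb d
        have : (⟨a * b, N.mul_mem ha hb⟩ : N) = ⟨a, ha⟩ * ⟨b, hb⟩ := rfl
        rw [this, mul_smul, ihb d, iha d]
      · intro a ha iha d
        have : (⟨a⁻¹, N.inv_mem ha⟩ : N) = (⟨a, ha⟩ : N)⁻¹ := rfl
        rw [this, inv_smul_eq_iff]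
        exact (iha d).symm
    obtain ⟨d, d', hdd⟩ := exists_pair_ne (N ⧸ M)
    obtain ⟨g, hg⟩ := exists_smul_eq N d d'
    apply hdd
    rw [← hg]
    exact (hall g g.2 d).symm
  obtain ⟨h, hhr, d0, hd0⟩ := hgen
  have hmoved : Fintype.card (N ⧸ M) ≤
      2 * (Finset.univ.filter (fun d : N ⧸ M => h • d ≠ d)).card := by
    rcases fixes_or_card_le N (N ⧸ M) h with hfix | hle
    · exact absurd (hfix d0) hd0
    · convert hle
  set b := (fib p Y (QuotientGroup.mk 1)).card with hb
  have hball : ∀ d, (fib p Y d).card = b := fun d => fib_card_const p Y hinv hp d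
  have hYcard := card_eq_mul p Y b hball
  have hsub : (Finset.univ.filter (fun d : N ⧸ M => h • d ≠ d)).biUnion (fib p Y) ⊆
      (h : Equiv.Perm X).support := by
    intro y hy
    rw [Finset.mem_biUnion] at hy
    obtain ⟨d, hd, hyd⟩ := hy
    rw [Finset.mem_filter] at hd
    rw [fib, Finset.mem_filter] at hyd
    rw [Equiv.Perm.mem_support]
    intro heq
    apply hd.2
    have h1 := hp h y hyd.1
    have h2 : (h : Equiv.Perm X) • y = y := heq
    rw [h2, hyd.2] at h1
    exact h1.symm
  have hcardU : ((Finset.univ.filter (fun d : N ⧸ M => h • d ≠ d)).biUnion (fib p Y)).card =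
      (Finset.univ.filter (fun d : N ⧸ M => h • d ≠ d)).card * b := by
    rw [Finset.card_biUnion]
    · rw [Finset.sum_congr rfl (fun d _ => hball d), Finset.sum_const, smul_eq_mul]
    · intro d _ d' _ hdd
      rw [Function.onFun, Finset.disjoint_left]
      intro y hy hy'
      rw [fib, Finset.mem_filter] at hy hy'
      exact hdd (hy.2.symm.trans hy'.2)
  have hle1 := Finset.card_le_card hsub
  rw [hcardU] at hle1
  calc Y.card = Fintype.card (N ⧸ M) * b := hYcard
    _ ≤ (2 * (Finset.univ.filter (fun d : N ⧸ M => h • d ≠ d)).card) * b :=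
        Nat.mul_le_mul_right _ hmoved
    _ = 2 * ((Finset.univ.filter (fun d : N ⧸ M => h • d ≠ d)).card * b) := by ring
    _ ≤ 2 * r := by
        apply Nat.mul_le_mul_left
        exact hle1.trans hhr

/-- The transposition graph. -/
def Gam (H : Subgroup (Equiv.Perm X)) (r : ℕ) (a b : X) : Prop :=
  a ≠ b ∧ ∃ h ∈ H, h.support.card ≤ r ∧ h a = b ∧ h b = a ∧
    ∀ c ∈ Orb (NN H r) a, c ≠ a → c ≠ b → h c = c

theorem Gam_symm {H : Subgroup (Equiv.Perm X)} {r : ℕ} {a b : X} (h : Gam H r a b) :
    Gam H r b a := by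
  obtain ⟨hne, h, hh, hr, hab, hba, hfix⟩ := h
  refine ⟨hne.symm, h, hh, hr, hba, hab, ?_⟩
  intro c hc hcb hca
  have : b ∈ Orb (NN H r) a := mem_Orb.mpr ⟨h, mem_NN hh hr, hab⟩
  rw [Orb_eq_of_mem this] at hc
  exact hfix c hc hca hcb

/-- The transposition graph has degrees at most three. -/
theorem Gam_card_le (H : Subgroup (Equiv.Perm X)) (hsol : Group.IsSolvable H) (r : ℕ) (a : X) :
    (Finset.univ.filter (fun b => Gam H r a b)).card ≤ 3 := by
  by_contra hcon
  push Not at hcon
  set N := NN H r with hN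
  have hNsol : Group.IsSolvable N :=
    Group.isSolvable_of_isSolvable_injective (f := Subgroup.inclusion (NN_le H r))
      (Subgroup.inclusion_injective _)
  -- four neighbours
  obtain ⟨T, hT, hTc⟩ := Finset.exists_subset_card_eq
    (s := Finset.univ.filter (fun b => Gam H r a b)) (n := 4) (by omega)
  have haT : a ∉ T := by
    intro ha
    have := hT ha
    rw [Finset.mem_filter] at this
    exact this.2.1 rfl
  have hinsert : (insert a T).card = 5 := by
    rw [Finset.card_insert_of_notMem haT, hTc]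
  have hsubOrb : ∀ y ∈ insert a T, y ∈ orbit N a := by
    intro y hy
    rcases Finset.mem_insert.mp hy with rfl | hy
    · exact mem_orbit_self _
    · have := hT hy
      rw [Finset.mem_filter] at this
      obtain ⟨-, -, h, hh, hr, hab, -⟩ := this
      exact ⟨⟨h, mem_NN hh hr⟩, hab⟩
  let f : N →* Equiv.Perm (orbit N a) := toPermHom N (orbit N a)
  have hRsol : Group.IsSolvable f.range :=
    Group.isSolvable_of_surjective (f := f.rangeRestrict) f.rangeRestrict_surjective
  let a' : orbit N a := ⟨a, mem_orbit_self _⟩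
  -- star transpositions
  have hstar : ∀ y (hy : y ∈ T), ∀ (hyo : y ∈ orbit N a),
      Equiv.swap a' ⟨y, hyo⟩ ∈ f.range := by
    intro y hy hyo
    have := hT hy
    rw [Finset.mem_filter] at this
    obtain ⟨-, hne, h, hh, hr, hab, hba, hfix⟩ := this
    refine ⟨⟨h, mem_NN hh hr⟩, ?_⟩
    ext ⟨z, hz⟩
    have hval : ((f ⟨h, mem_NN hh hr⟩) ⟨z, hz⟩ : orbit N a).1 = h z := rfl
    rw [hval]
    by_cases hza : z = a
    · subst hza
      have : Equiv.swap a' (⟨y, hyo⟩ : orbit N z) ⟨z, hz⟩ = ⟨y, hyo⟩ := Equiv.swap_apply_left _ _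
      rw [this, hab]
    · by_cases hzy : z = y
      · subst hzy
        have : Equiv.swap a' (⟨z, hyo⟩ : orbit N a) ⟨z, hz⟩ = a' := Equiv.swap_apply_right _ _
        rw [this, hba]
      · have : Equiv.swap a' (⟨y, hyo⟩ : orbit N a) ⟨z, hz⟩ = ⟨z, hz⟩ := by
          apply Equiv.swap_apply_of_ne_of_ne
          · intro h
            exact hza (congrArg Subtype.val h)
          · intro h
            exact hzy (congrArg Subtype.val h)
        rw [this]
        apply hfix z _ hza hzy
        obtain ⟨g, hg⟩ := hz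
        exact mem_Orb.mpr ⟨g, g.2, hg⟩
  have hswap : ∀ y ∈ insert a T, ∀ z ∈ insert a T, ∀ (hyo : y ∈ orbit N a) (hzo : z ∈ orbit N a),
      y ≠ z → Equiv.swap (⟨y, hyo⟩ : orbit N a) ⟨z, hzo⟩ ∈ f.range := by
    intro y hy z hz hyo hzo hyz
    rcases Finset.mem_insert.mp hy with rfl | hyT
    · rcases Finset.mem_insert.mp hz with rfl | hzT
      · exact absurd rfl hyz
      · exact hstar z hzT hzo
    · rcases Finset.mem_insert.mp hz with rfl | hzT
      · rw [Equiv.swap_comm]
        exact hstar y hyT hyo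
      · have hya : (⟨y, hyo⟩ : orbit N a) ≠ a' := by
          intro h
          have : y = a := congrArg Subtype.val h
          exact haT (this ▸ hyT)
        have hyz' : (⟨y, hyo⟩ : orbit N a) ≠ ⟨z, hzo⟩ := by
          intro h
          exact hyz (congrArg Subtype.val h)
        have hza : (⟨z, hzo⟩ : orbit N a) ≠ a' := by
          intro h
          have : z = a := congrArg Subtype.val h
          exact haT (this ▸ hzT)
        have key : Equiv.swap (⟨y, hyo⟩ : orbit N a) ⟨z, hzo⟩ =
            Equiv.swap a' ⟨z, hzo⟩ * Equiv.swap a' ⟨y, hyo⟩ * Equiv.swap a' ⟨z, hzo⟩ := by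
          have := Equiv.swap_mul_swap_mul_swap (x := (⟨y, hyo⟩ : orbit N a)) (y := a')
            (z := ⟨z, hzo⟩) hya hyz'
          rw [Equiv.swap_comm (⟨y, hyo⟩ : orbit N a) a'] at this
          rw [this, Equiv.swap_comm]
        rw [key]
        exact f.range.mul_mem (f.range.mul_mem (hstar z hzT hzo) (hstar y hyT hyo))
          (hstar z hzT hzo)
  let e0 : Fin 5 ≃ {y // y ∈ insert a T} := (Finset.equivFinOfCardEq hinsert).symm
  let e : Fin 5 ↪ orbit N a :=
    ⟨fun i => ⟨(e0 i).1, hsubOrb _ (e0 i).2⟩, by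
      intro i j hij
      have : (e0 i).1 = (e0 j).1 := by
        have h2 := congrArg (fun q : orbit N a => q.1) hij
        exact h2
      exact e0.injective (Subtype.ext this)⟩
  have hrange : ∀ σ : Equiv.Perm (Fin 5), Equiv.Perm.viaEmbeddingHom e σ ∈ f.range := by
    have hle : (⊤ : Subgroup (Equiv.Perm (Fin 5))) ≤
        f.range.comap (Equiv.Perm.viaEmbeddingHom e) := by
      rw [← Equiv.Perm.closure_isSwap, Subgroup.closure_le]
      rintro σ ⟨i, j, hij, rfl⟩
      change Equiv.Perm.viaEmbeddingHom e (Equiv.swap i j) ∈ f.range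
      have h1 : Equiv.Perm.viaEmbeddingHom e (Equiv.swap i j) = Equiv.swap (e i) (e j) := by
        rw [Equiv.Perm.viaEmbeddingHom_apply]
        ext z
        congr 1
        by_cases hz : z ∈ Set.range e
        · obtain ⟨k, rfl⟩ := hz
          rw [Equiv.Perm.viaEmbedding_apply]
          exact (Function.Injective.map_swap e.injective i j k)
        · rw [Equiv.Perm.viaEmbedding_apply_of_notMem _ _ _ hz, Equiv.swap_apply_of_ne_of_ne]
          · rintro rfl
            exact hz ⟨i, rfl⟩
          · rintro rfl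
            exact hz ⟨j, rfl⟩
      rw [h1]
      apply hswap _ (e0 i).2 _ (e0 j).2
      intro h
      exact hij (e0.injective (Subtype.ext h))
    intro σ
    exact hle (Subgroup.mem_top σ)
  let q : Equiv.Perm (Fin 5) →* f.range :=
    (Equiv.Perm.viaEmbeddingHom e).codRestrict f.range hrange
  have hq : Function.Injective q := by
    intro u v huv
    apply Equiv.Perm.viaEmbeddingHom_injective e
    exact congrArg Subtype.val huv
  exact Equiv.Perm.not_isSolvable_fin_5 (Group.isSolvable_of_isSolvable_injective hq)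

end Pool.Agent.Lib.MP_69a6f7_al
end

section

open MulAction
open scoped Classical Nat

namespace Pool.Agent.Lib.MP_69a6f7_al

section pairs

variable {X κ : Type*} [DecidableEq κ]

theorem two_mul_card_image_le (S : Finset X) (c : X → κ)
    (h : ∀ a ∈ S, ∃ b ∈ S, b ≠ a ∧ c b = c a) : 2 * (S.image c).card ≤ S.card := by
  rw [Finset.card_eq_sum_card_image c S, mul_comm, ← smul_eq_mul]
  apply Finset.card_nsmul_le_sum
  intro t ht
  rw [Finset.mem_image] at ht
  obtain ⟨a, ha, rfl⟩ := ht
  obtain ⟨b, hb, hba, hcb⟩ := h a ha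
  have : 1 < (S.filter (fun x => c x = c a)).card := by
    rw [Finset.one_lt_card]
    exact ⟨b, by rw [Finset.mem_filter]; exact ⟨hb, hcb⟩, a,
      by rw [Finset.mem_filter]; exact ⟨ha, rfl⟩, hba⟩
  omega

theorem fibre_eq_two (S : Finset X) (c : X → κ)
    (h : ∀ a ∈ S, ∃ b ∈ S, b ≠ a ∧ c b = c a) (heq : S.card ≤ 2 * (S.image c).card) :
    ∀ a ∈ S, (S.filter (fun x => c x = c a)).card = 2 := by
  have hle : ∀ t ∈ S.image c, 2 ≤ (S.filter (fun x => c x = t)).card := by
    intro t ht
    rw [Finset.mem_image] at ht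
    obtain ⟨a, ha, rfl⟩ := ht
    obtain ⟨b, hb, hba, hcb⟩ := h a ha
    have : 1 < (S.filter (fun x => c x = c a)).card := by
      rw [Finset.one_lt_card]
      exact ⟨b, by rw [Finset.mem_filter]; exact ⟨hb, hcb⟩, a,
        by rw [Finset.mem_filter]; exact ⟨ha, rfl⟩, hba⟩
    omega
  have hsum : ∑ t ∈ S.image c, 2 = ∑ t ∈ S.image c, (S.filter (fun x => c x = t)).card := by
    apply le_antisymm
    · exact Finset.sum_le_sum hle
    · rw [← Finset.card_eq_sum_card_image c S, Finset.sum_const, smul_eq_mul, mul_comm]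
      exact heq
  have := (Finset.sum_eq_sum_iff_of_le hle).mp hsum
  intro a ha
  exact (this (c a) (Finset.mem_image_of_mem c ha)).symm

end pairs

variable {X : Type*} [Fintype X]

/-- The number of orbits of `N` met by `S`. -/
noncomputable def kk (N : Subgroup (Equiv.Perm X)) (S : Finset X) : ℕ := (S.image (Orb N)).card

theorem count_kk (N : Subgroup (Equiv.Perm X)) (D : ℕ) (hD : ∀ x, (Orb N x).card ≤ D) (k : ℕ) :
    (Finset.univ.filter (fun S : Finset X => kk N S = k)).card ≤
      (Fintype.card X * 2 ^ D) ^ k := by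
  set U : Finset (Finset X) := Finset.univ.image (Orb N) with hU
  have hUc : U.card ≤ Fintype.card X := by
    rw [hU, ← Finset.card_univ]
    exact Finset.card_image_le
  have hcls : ∀ T : Finset X, (Finset.univ.filter (fun x => Orb N x = T)).card ≤ D := by
    intro T
    rcases (Finset.univ.filter (fun x => Orb N x = T)).eq_empty_or_nonempty with h | ⟨x0, hx0⟩
    · rw [h, Finset.card_empty]
      exact Nat.zero_le _
    · rw [Finset.mem_filter] at hx0
      refine le_trans (Finset.card_le_card ?_) (hD x0)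
      intro x hx
      rw [Finset.mem_filter] at hx
      rw [hx0.2, ← hx.2]
      exact mem_Orb_self N x
  have hcov : (Finset.univ.filter (fun S : Finset X => kk N S = k)) ⊆
      (U.powersetCard k).biUnion
        (fun T => (Finset.univ.filter (fun x => Orb N x ∈ T)).powerset) := by
    intro S hS
    rw [Finset.mem_filter] at hS
    rw [Finset.mem_biUnion]
    refine ⟨S.image (Orb N), ?_, ?_⟩
    · rw [Finset.mem_powersetCard]
      exact ⟨Finset.image_subset_image (Finset.subset_univ _), hS.2⟩
    · rw [Finset.mem_powerset]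
      intro x hx
      rw [Finset.mem_filter]
      exact ⟨Finset.mem_univ _, Finset.mem_image_of_mem _ hx⟩
  calc (Finset.univ.filter (fun S : Finset X => kk N S = k)).card
      ≤ ((U.powersetCard k).biUnion
        (fun T => (Finset.univ.filter (fun x => Orb N x ∈ T)).powerset)).card :=
        Finset.card_le_card hcov
    _ ≤ (U.powersetCard k).card * 2 ^ (D * k) := by
        apply Finset.card_biUnion_le_card_mul
        intro T hT
        rw [Finset.mem_powersetCard] at hT
        rw [Finset.card_powerset]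
        apply Nat.pow_le_pow_right (by norm_num)
        have : (Finset.univ.filter (fun x => Orb N x ∈ T)) =
            T.biUnion (fun t => Finset.univ.filter (fun x => Orb N x = t)) := by
          ext x
          simp
        rw [this, mul_comm, ← hT.2]
        exact Finset.card_biUnion_le_card_mul _ _ _ (fun t _ => hcls t)
    _ = U.card.choose k * 2 ^ (D * k) := by rw [Finset.card_powersetCard]
    _ ≤ Fintype.card X ^ k * 2 ^ (D * k) := by
        apply Nat.mul_le_mul_right
        calc U.card.choose k ≤ U.card ^ k := Nat.choose_le_pow _ _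
          _ ≤ _ := Nat.pow_le_pow_left hUc k
    _ = (Fintype.card X * 2 ^ D) ^ k := by rw [mul_pow, ← pow_mul]

/-- Permutations mapping `S'` onto `S`. -/
noncomputable def WW (S' S : Finset X) : Finset (Equiv.Perm X) :=
  Finset.univ.filter (fun x => ∀ a, a ∈ S' ↔ x a ∈ S)

theorem card_WW_le (S' S : Finset X) :
    (WW S' S).card ≤ (S'.card)! * (Fintype.card X - S'.card)! := by
  rcases (WW S' S).eq_empty_or_nonempty with h | ⟨x0, hx0⟩
  · rw [h, Finset.card_empty]
    exact Nat.zero_le _
  · rw [WW, Finset.mem_filter] at hx0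
    let f : X → Bool := fun a => decide (a ∈ S')
    have hst := DomMulAct.stabilizer_card f
    have hT : Fintype.card {a // f a = true} = S'.card := by
      rw [Fintype.card_subtype]
      congr 1
      ext a
      simp [f]
    have hF : Fintype.card {a // f a = false} = Fintype.card X - S'.card := by
      rw [Fintype.card_subtype, ← Finset.card_compl]
      congr 1
      ext a
      simp [f]
    rw [Fintype.prod_bool, hT, hF] at hst
    rw [← hst, Fintype.card_subtype]
    apply Finset.card_le_card_of_injOn (fun x => x0⁻¹ * x)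
    · intro x hx
      rw [WW, Finset.coe_filter, Set.mem_ofPred_eq] at hx
      rw [Finset.coe_filter, Set.mem_ofPred_eq]
      refine ⟨Finset.mem_univ _, ?_⟩
      funext a
      simp only [f, Function.comp_apply, Equiv.Perm.mul_apply]
      apply decide_eq_decide.mpr
      have h1 := hx0.2 (x0⁻¹ (x a))
      have h2 : x0 (x0⁻¹ (x a)) = x a := by simp
      rw [h2] at h1
      rw [h1, ← hx.2 a]
    · intro x _ y _ hxy
      exact mul_left_cancel hxy

theorem pair_property {H : Subgroup (Equiv.Perm X)} {r : ℕ} {z : Equiv.Perm X} (hz : z ∈ H)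
    (hr : z.support.card ≤ r) :
    ∀ a ∈ z.support, ∃ b ∈ z.support, b ≠ a ∧ Orb (NN H r) b = Orb (NN H r) a := by
  intro a ha
  refine ⟨z a, ?_, ?_, ?_⟩
  · rw [Equiv.Perm.apply_mem_support]
    exact ha
  · exact Equiv.Perm.mem_support.mp ha
  · exact Orb_eq (mem_NN hz hr)

theorem edge_of_two {H : Subgroup (Equiv.Perm X)} {r : ℕ} {z : Equiv.Perm X} (hz : z ∈ H)
    (hr : z.support.card ≤ r) (heq : z.support.card ≤ 2 * kk (NN H r) z.support) (a : X)
    (ha : a ∈ z.support) : Gam H r a (z a) := by
  have h2 := fibre_eq_two z.support (Orb (NN H r)) (pair_property hz hr) heq a ha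
  have hza : z a ∈ z.support := Equiv.Perm.apply_mem_support.mpr ha
  have hne : z a ≠ a := Equiv.Perm.mem_support.mp ha
  set F := z.support.filter (fun x => Orb (NN H r) x = Orb (NN H r) a) with hF
  have haF : a ∈ F := by rw [hF, Finset.mem_filter]; exact ⟨ha, rfl⟩
  have hzaF : z a ∈ F := by
    rw [hF, Finset.mem_filter]
    exact ⟨hza, Orb_eq (mem_NN hz hr)⟩
  have hFeq : F = {a, z a} := by
    symm
    apply Finset.eq_of_subset_of_card_le
    · intro y hy
      rw [Finset.mem_insert, Finset.mem_singleton] at hy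
      rcases hy with rfl | rfl
      · exact haF
      · exact hzaF
    · rw [hF, h2, Finset.card_pair hne.symm]
  have hmem : ∀ c, c ∈ z.support → Orb (NN H r) c = Orb (NN H r) a → c = a ∨ c = z a := by
    intro c hc hco
    have : c ∈ F := by rw [hF, Finset.mem_filter]; exact ⟨hc, hco⟩
    rw [hFeq, Finset.mem_insert, Finset.mem_singleton] at this
    exact this
  refine ⟨hne.symm, z, hz, hr, rfl, ?_, ?_⟩
  · have h1 : z (z a) ∈ z.support := Equiv.Perm.apply_mem_support.mpr hza
    have h3 : Orb (NN H r) (z (z a)) = Orb (NN H r) a := by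
      rw [Orb_eq (mem_NN hz hr), Orb_eq (mem_NN hz hr)]
    rcases hmem _ h1 h3 with h | h
    · exact h
    · exact absurd (z.injective h) hne
  · intro c hc hca hcza
    by_contra hzc
    have h1 : c ∈ z.support := Equiv.Perm.mem_support.mpr hzc
    rcases hmem c h1 (Orb_eq_of_mem hc) with h | h
    · exact hca h
    · exact hcza h

/-- The structural claim about small supports. -/
theorem kk_add_kk_lt (H K : Subgroup (Equiv.Perm X)) (r s : ℕ) (x z : Equiv.Perm X)
    (hx : ∀ a b, Gam K r a b → ¬ Gam H r (x a) (x b)) (hz : z ∈ H) (hzK : x⁻¹ * z * x ∈ K)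
    (hs : z.support.card = s) (hs1 : 1 ≤ s) (hsr : s ≤ r) :
    kk (NN H r) z.support + kk (NN K r) (x⁻¹ * z * x).support < s := by
  have hs' : (x⁻¹ * z * x).support.card = s := by rw [support_conj_card]; exact hs
  by_contra hcon
  push Not at hcon
  have h1 : 2 * kk (NN H r) z.support ≤ z.support.card :=
    two_mul_card_image_le _ _ (pair_property (r := r) hz (by omega))
  have h2 : 2 * kk (NN K r) (x⁻¹ * z * x).support ≤ (x⁻¹ * z * x).support.card :=
    two_mul_card_image_le _ _ (pair_property (r := r) hzK (by omega))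
  obtain ⟨a, ha⟩ : (x⁻¹ * z * x).support.Nonempty := by
    rw [← Finset.card_pos]
    omega
  have e1 := edge_of_two (r := r) hzK (by omega) (by omega) a ha
  have hxa : x a ∈ z.support := by
    rw [Equiv.Perm.mem_support] at ha ⊢
    intro h
    apply ha
    simp only [Equiv.Perm.mul_apply]
    rw [h]
    simp
  have e2 := edge_of_two (r := r) hz (by omega) (by omega) (x a) hxa
  apply hx _ _ e1
  have : x ((x⁻¹ * z * x) a) = z (x a) := by simp
  rw [this]
  exact e2

/-- Small supports are rare for permutations respecting the transposition graphs. -/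
theorem card_small_le (H K : Subgroup (Equiv.Perm X)) (hH : Group.IsSolvable H)
    (hK : Group.IsSolvable K) (r s : ℕ) (hs1 : 1 ≤ s) (hsr : s ≤ r) (hsn : s ≤ Fintype.card X) :
    ((BadS H K s).filter (fun x => ∀ a b, Gam K r a b → ¬ Gam H r (x a) (x b))).card *
        Fintype.card X ≤
      (s ^ 2 * (2 ^ (2 * r)) ^ (s - 1) * s ! * 4 ^ s) * (Fintype.card X)! := by
  set n := Fintype.card X with hn
  have hr1 : 1 ≤ r := le_trans hs1 hsr
  have hn1 : 1 ≤ n := le_trans hs1 hsn
  have hDH := Orb_card_le H hH r hr1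
  have hDK := Orb_card_le K hK r hr1
  let A : ℕ → Finset (Finset X) := fun k =>
    Finset.univ.filter (fun S : Finset X => kk (NN H r) S = k)
  let B : ℕ → Finset (Finset X) := fun k =>
    Finset.univ.filter (fun S : Finset X => kk (NN K r) S = k)
  let I : Finset (ℕ × ℕ) := (Finset.range s ×ˢ Finset.range s).filter (fun q => q.1 + q.2 < s)
  let P : Finset (Finset X × Finset X) := I.biUnion (fun q => A q.1 ×ˢ B q.2)
  have hPcard : P.card ≤ s ^ 2 * (n * 2 ^ (2 * r)) ^ (s - 1) := by
    calc P.card ≤ I.card * (n * 2 ^ (2 * r)) ^ (s - 1) := by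
          apply Finset.card_biUnion_le_card_mul
          intro q hq
          rw [Finset.mem_filter] at hq
          rw [Finset.card_product]
          calc (A q.1).card * (B q.2).card
              ≤ (n * 2 ^ (2 * r)) ^ q.1 * (n * 2 ^ (2 * r)) ^ q.2 :=
                Nat.mul_le_mul (count_kk (NN H r) (2 * r) hDH q.1)
                  (count_kk (NN K r) (2 * r) hDK q.2)
            _ = (n * 2 ^ (2 * r)) ^ (q.1 + q.2) := by rw [pow_add]
            _ ≤ (n * 2 ^ (2 * r)) ^ (s - 1) := by
                apply Nat.pow_le_pow_right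
                · positivity
                · omega
      _ ≤ s ^ 2 * (n * 2 ^ (2 * r)) ^ (s - 1) := by
          apply Nat.mul_le_mul_right
          calc I.card ≤ (Finset.range s ×ˢ Finset.range s).card :=
                Finset.card_le_card (Finset.filter_subset _ _)
            _ = s ^ 2 := by rw [Finset.card_product, Finset.card_range, sq]
  have hcov : ((BadS H K s).filter (fun x => ∀ a b, Gam K r a b → ¬ Gam H r (x a) (x b))) ⊆
      (P.filter (fun q => q.2.card = s)).biUnion (fun q => WW q.2 q.1) := by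
    intro x hx
    rw [Finset.mem_filter, BadS, Finset.mem_filter] at hx
    obtain ⟨⟨-, z, hz, hzK, hzs⟩, hgood⟩ := hx
    have hlt := kk_add_kk_lt H K r s x z hgood hz hzK hzs hs1 hsr
    rw [Finset.mem_biUnion]
    refine ⟨(z.support, (x⁻¹ * z * x).support), ?_, ?_⟩
    · rw [Finset.mem_filter]
      constructor
      · rw [Finset.mem_biUnion]
        refine ⟨(kk (NN H r) z.support, kk (NN K r) (x⁻¹ * z * x).support), ?_, ?_⟩
        · rw [Finset.mem_filter, Finset.mem_product, Finset.mem_range, Finset.mem_range]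
          refine ⟨⟨?_, ?_⟩, hlt⟩
          · simp only
            omega
          · simp only
            omega
        · rw [Finset.mem_product]
          exact ⟨by simp [A], by simp [B]⟩
      · simp only
        rw [support_conj_card]
        exact hzs
    · rw [WW, Finset.mem_filter]
      refine ⟨Finset.mem_univ _, ?_⟩
      intro a
      simp only [Equiv.Perm.mem_support, Equiv.Perm.mul_apply]
      rw [not_iff_not]
      rw [Equiv.Perm.inv_eq_iff_eq]
  have h1 : ((BadS H K s).filter (fun x => ∀ a b, Gam K r a b → ¬ Gam H r (x a) (x b))).card ≤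
      (s ^ 2 * (n * 2 ^ (2 * r)) ^ (s - 1)) * (s ! * (n - s)!) := by
    calc _ ≤ ((P.filter (fun q => q.2.card = s)).biUnion (fun q => WW q.2 q.1)).card :=
          Finset.card_le_card hcov
      _ ≤ (P.filter (fun q => q.2.card = s)).card * (s ! * (n - s)!) := by
          apply Finset.card_biUnion_le_card_mul
          intro q hq
          rw [Finset.mem_filter] at hq
          have := card_WW_le q.2 q.1
          rw [hq.2] at this
          exact this
      _ ≤ P.card * (s ! * (n - s)!) :=
          Nat.mul_le_mul_right _ (Finset.card_le_card (Finset.filter_subset _ _))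
      _ ≤ _ := Nat.mul_le_mul_right _ hPcard
  calc _ ≤ ((s ^ 2 * (n * 2 ^ (2 * r)) ^ (s - 1)) * (s ! * (n - s)!)) * n :=
        Nat.mul_le_mul_right _ h1
    _ = (s ^ 2 * (2 ^ (2 * r)) ^ (s - 1) * s !) * ((n - s)! * n ^ s) := by
        obtain ⟨k, rfl⟩ : ∃ k, s = k + 1 := ⟨s - 1, by omega⟩
        simp only [Nat.add_sub_cancel]
        rw [mul_pow n, pow_succ n k]
        ring
    _ ≤ (s ^ 2 * (2 ^ (2 * r)) ^ (s - 1) * s !) * (4 ^ s * n !) :=
        Nat.mul_le_mul_left _ (factorial_sub_bound n s hsn)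
    _ = _ := by ring

end Pool.Agent.Lib.MP_69a6f7_al
end

section

open MulAction
open scoped Classical Nat

namespace Pool.Agent.Lib.MP_69a6f7_al

theorem geom_tail (r n : ℕ) (h : r ≤ n) :
    ∑ s ∈ Finset.Ioc r n, (1 / 4 : ℝ) ^ s + (1 / 4) ^ n ≤ (1 / 4) ^ r := by
  induction n, h using Nat.le_induction with
  | base => simp
  | succ n hn ih =>
    have : Finset.Ioc r (n + 1) = insert (n + 1) (Finset.Ioc r n) := by
      ext s
      simp only [Finset.mem_Ioc, Finset.mem_insert]
      omega
    rw [this, Finset.sum_insert (by simp)]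
    have hp : (0 : ℝ) < (1 / 4) ^ n := by positivity
    rw [pow_succ]
    linarith

/-- The constant controlling small supports. -/
def Cs (r s : ℕ) : ℕ := s ^ 2 * (2 ^ (2 * r)) ^ (s - 1) * s ! * 4 ^ s

/-- Main combinatorial statement. -/
theorem exists_even (r : ℕ) (hr : 2 ^ 42 ≤ r) (X : Type*) [Fintype X]
    (hn : 44 + r + 4 * (6 * 19 ^ 35) * ∑ s ∈ Finset.Icc 1 r, Cs r s ≤ Fintype.card X)
    (H K : Subgroup (Equiv.Perm X)) (hH : Group.IsSolvable H) (hK : Group.IsSolvable K) :
    ∃ x : Equiv.Perm X, Equiv.Perm.sign x = 1 ∧ ∀ z ∈ H, x⁻¹ * z * x ∈ K → z = 1 := by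
  set n := Fintype.card X with hnd
  set C := ∑ s ∈ Finset.Icc 1 r, Cs r s with hC
  set c0 : ℕ := 6 * 19 ^ 35 with hc0
  by_contra hcon
  push Not at hcon
  set Good : Finset (Equiv.Perm X) := Finset.univ.filter (fun x : Equiv.Perm X =>
      Equiv.Perm.sign x = 1 ∧ ∀ a b, Gam K r a b → ¬ Gam H r (x a) (x b)) with hGood
  have hge : n ! ≤ c0 * Good.card := by
    apply card_good_ge (E := Gam H r) (E' := Gam K r)
    · exact Gam_card_le H hH r
    · exact Gam_card_le K hK r
    · intro a b h
      exact Gam_symm h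
    · intro a b h
      exact Gam_symm h
    · intro a h
      exact h.1 rfl
    · omega
  have hcov : Good ⊆ (Finset.Icc 1 r).biUnion (fun s => (BadS H K s).filter
        (fun x => ∀ a b, Gam K r a b → ¬ Gam H r (x a) (x b))) ∪
      (Finset.Ioc r n).biUnion (fun s => BadS H K s) := by
    intro x hx
    rw [hGood, Finset.mem_filter] at hx
    obtain ⟨-, hx1, hx2⟩ := hx
    obtain ⟨z, hz, hzK, hz1⟩ := hcon x hx1
    have hs1 : 1 ≤ z.support.card := by
      have : z.support ≠ ∅ := by
        intro h
        exact hz1 (Equiv.Perm.support_eq_empty_iff.mp h)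
      exact Finset.card_pos.mpr (Finset.nonempty_iff_ne_empty.mpr this)
    have hsn : z.support.card ≤ n := by
      rw [hnd, ← Finset.card_univ]
      exact Finset.card_le_card (Finset.subset_univ _)
    have hbad : x ∈ BadS H K z.support.card := by
      rw [BadS, Finset.mem_filter]
      exact ⟨Finset.mem_univ _, z, hz, hzK, rfl⟩
    rw [Finset.mem_union, Finset.mem_biUnion, Finset.mem_biUnion]
    by_cases hsr : z.support.card ≤ r
    · left
      refine ⟨z.support.card, Finset.mem_Icc.mpr ⟨hs1, hsr⟩, ?_⟩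
      rw [Finset.mem_filter]
      exact ⟨hbad, hx2⟩
    · right
      exact ⟨z.support.card, Finset.mem_Ioc.mpr ⟨by omega, hsn⟩, hbad⟩
  have hnpos : (0 : ℝ) < n := by
    have : 0 < n := by omega
    exact_mod_cast this
  have hfpos : (0 : ℝ) < ((n ! : ℕ) : ℝ) := by exact_mod_cast Nat.factorial_pos n
  have h1 : (((Finset.Icc 1 r).biUnion (fun s => (BadS H K s).filter
        (fun x => ∀ a b, Gam K r a b → ¬ Gam H r (x a) (x b)))).card : ℝ) ≤
        C * ((n ! : ℕ) : ℝ) / n := by
    calc (((Finset.Icc 1 r).biUnion (fun s => (BadS H K s).filter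
        (fun x => ∀ a b, Gam K r a b → ¬ Gam H r (x a) (x b)))).card : ℝ)
        ≤ ∑ s ∈ Finset.Icc 1 r, (((BadS H K s).filter
        (fun x => ∀ a b, Gam K r a b → ¬ Gam H r (x a) (x b))).card : ℝ) := by
          exact_mod_cast Finset.card_biUnion_le
      _ ≤ ∑ s ∈ Finset.Icc 1 r, (Cs r s : ℝ) * ((n ! : ℕ) : ℝ) / n := by
          apply Finset.sum_le_sum
          intro s hs
          rw [Finset.mem_Icc] at hs
          rw [le_div_iff₀ hnpos]
          have := card_small_le H K hH hK r s hs.1 hs.2 (by omega)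
          rw [← hnd] at this
          exact_mod_cast this
      _ = C * ((n ! : ℕ) : ℝ) / n := by
          rw [← Finset.sum_div, ← Finset.sum_mul, hC]
          push_cast
          rfl
  have h2 : (((Finset.Ioc r n).biUnion (fun s => BadS H K s)).card : ℝ) ≤
      (1 / 4) ^ r * ((n ! : ℕ) : ℝ) := by
    calc (((Finset.Ioc r n).biUnion (fun s => BadS H K s)).card : ℝ)
        ≤ ∑ s ∈ Finset.Ioc r n, ((BadS H K s).card : ℝ) := by
          exact_mod_cast Finset.card_biUnion_le
      _ ≤ ∑ s ∈ Finset.Ioc r n, (1 / 4) ^ s * ((n ! : ℕ) : ℝ) := by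
          apply Finset.sum_le_sum
          intro s hs
          rw [Finset.mem_Ioc] at hs
          exact card_BadS_le H K hH hK s (by omega) (by omega)
      _ = (∑ s ∈ Finset.Ioc r n, (1 / 4 : ℝ) ^ s) * ((n ! : ℕ) : ℝ) := by rw [Finset.sum_mul]
      _ ≤ (1 / 4) ^ r * ((n ! : ℕ) : ℝ) := by
          apply mul_le_mul_of_nonneg_right _ hfpos.le
          have := geom_tail r n (by omega)
          have hp : (0 : ℝ) < (1 / 4) ^ n := by positivity
          linarith
  have h3 : (Good.card : ℝ) ≤ C * ((n ! : ℕ) : ℝ) / n + (1 / 4) ^ r * ((n ! : ℕ) : ℝ) := by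
    have h := (Finset.card_le_card hcov).trans (Finset.card_union_le _ _)
    have h' : (Good.card : ℝ) ≤ (((Finset.Icc 1 r).biUnion (fun s => (BadS H K s).filter
        (fun x => ∀ a b, Gam K r a b → ¬ Gam H r (x a) (x b)))).card : ℝ) +
        (((Finset.Ioc r n).biUnion (fun s => BadS H K s)).card : ℝ) := by exact_mod_cast h
    linarith
  have hc0pos : (0 : ℝ) < c0 := by
    rw [hc0]
    norm_num
  have h4 : ((n ! : ℕ) : ℝ) ≤ c0 * Good.card := by exact_mod_cast hge
  have h5 : (C : ℝ) / n ≤ 1 / (4 * c0) := by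
    rw [div_le_div_iff₀ hnpos (by positivity)]
    have : 4 * c0 * C ≤ n := by omega
    have h' : (4 * (c0 : ℝ) * C) ≤ n := by exact_mod_cast this
    linarith
  have h6 : ((1 : ℝ) / 4) ^ r ≤ 1 / (4 * c0) := by
    have hr100 : 100 ≤ r := le_trans (by norm_num) hr
    calc ((1 : ℝ) / 4) ^ r ≤ (1 / 4) ^ 100 :=
          pow_le_pow_of_le_one (by norm_num) (by norm_num) hr100
      _ ≤ 1 / (4 * c0) := by
          rw [hc0]
          norm_num
  have h7 : (Good.card : ℝ) ≤ (1 / (2 * c0)) * ((n ! : ℕ) : ℝ) := by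
    calc (Good.card : ℝ) ≤ C * ((n ! : ℕ) : ℝ) / n + (1 / 4) ^ r * ((n ! : ℕ) : ℝ) := h3
      _ = (C / n) * ((n ! : ℕ) : ℝ) + (1 / 4) ^ r * ((n ! : ℕ) : ℝ) := by ring
      _ ≤ (1 / (4 * c0)) * ((n ! : ℕ) : ℝ) + (1 / (4 * c0)) * ((n ! : ℕ) : ℝ) := by
          apply add_le_add
          · exact mul_le_mul_of_nonneg_right h5 hfpos.le
          · exact mul_le_mul_of_nonneg_right h6 hfpos.le
      _ = (1 / (2 * c0)) * ((n ! : ℕ) : ℝ) := by
          field_simp
          ring
  have h8 : (c0 : ℝ) * Good.card ≤ (1 / 2) * ((n ! : ℕ) : ℝ) := by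
    calc (c0 : ℝ) * Good.card ≤ c0 * ((1 / (2 * c0)) * ((n ! : ℕ) : ℝ)) :=
          mul_le_mul_of_nonneg_left h7 hc0pos.le
      _ = (1 / 2) * ((n ! : ℕ) : ℝ) := by
          field_simp
  have h9 := h4.trans h8
  linarith

theorem exists_bound : ∃ N : ℕ, ∀ n : ℕ, N ≤ n → ∀ H K : Subgroup (Equiv.Perm (Fin n)),
    Group.IsSolvable H → Group.IsSolvable K →
    ∃ x : Equiv.Perm (Fin n), Equiv.Perm.sign x = 1 ∧ ∀ z ∈ H, x⁻¹ * z * x ∈ K → z = 1 := by
  obtain ⟨r, hr⟩ : ∃ r : ℕ, 2 ^ 42 ≤ r := ⟨_, le_rfl⟩
  refine ⟨44 + r + 4 * (6 * 19 ^ 35) * ∑ s ∈ Finset.Icc 1 r, Cs r s, ?_⟩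
  intro n hn H K hH hK
  obtain ⟨x, hx1, hx2⟩ :=
    exists_even r hr (Fin n) (by rw [Fintype.card_fin]; exact hn) H K hH hK
  refine ⟨x, ?_, hx2⟩
  have key : ∀ (i1 i2 : DecidableEq (Fin n)),
      @Equiv.Perm.sign (Fin n) i1 _ x = @Equiv.Perm.sign (Fin n) i2 _ x := by
    intro i1 i2
    rw [Subsingleton.elim i1 i2]
  rw [← hx1]
  exact key _ _

end Pool.Agent.Lib.MP_69a6f7_al
end
end
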